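import Pool.Agent.Y969.GP.Def
import Pool.Agent.H262R4.TM.Defs
import Pool.Agent.W184.NZ.Size
import Pool.Agent.H448R2.GC.Defs

set_option autoImplicit false

/-!
Project SX (helper969): the moments
`∫_0^T |ζ(1/2+it)|^4 ∏_{j ≤ n} |ζ(1/2+i(t+c_j))|² dt` for almost all `c ∈ [0,T]^n` (L¹ mean over `c`),
leading asymptotics. Definitions and statements.

Conventions: `om κ (κ/T)` is the Gamma density with mean about `T`; `cl t = 1/2+it`; `Xz t = |ζ(1/2+it)|`;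
`ff u = |ζ(1/2+iu)|²`; `mB n 0 U` is Lebesgue measure on the box `[0,U]^n`.
-/

namespace Pool.Agent.Y969.SM

open Finset Filter Topology MeasureTheory Complex
open Pool.Agent.Y969.GP (ff ht lam FR PX cr V mB)
open Pool.Agent.H306R2.SM (om cl Yf)
open Pool.Agent.H262R4.TM (Rng Ck)
open Pool.Agent.H448R2.GC (cs cu)
open Pool.Agent.W184.NZ (mh w1)

noncomputable section

/-- the absolute value of zeta on the critical line (equal to `Pool.Agent.TH806.Xz` by definition) -/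
def Xz (t : ℝ) : ℝ := ‖riemannZeta (cl t)‖

/-- the weight of the twisted fourth moment (equal to `Pool.Agent.TH806.N4.w2` by definition) -/
def w2 (x : ℕ × ℕ) : ℝ :=
  w1 x * ∏ p ∈ (x.1 * x.2).primeFactors,
    (1 + (((x.1.factorization p : ℤ) - x.2.factorization p).natAbs : ℝ) * (((p:ℝ) - 1) / ((p:ℝ) + 1)))

/-! ### the model of the fourth power -/

/-- the short smoothed sum of zeta, length `T^(0.49..0.495)` -/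
def a1 (k : ℕ) (T t : ℝ) : ℂ :=
  cs (k + 1) (1 / 200 * Real.log T / ((k : ℝ) + 1)) ((1 / 2 - 2 * (1 / 200)) * Real.log T) (cl t)

/-- the long smoothed sum of zeta, length `T^(0.505..0.51)` -/
def a2 (k : ℕ) (T t : ℝ) : ℂ :=
  cs (k + 1) (1 / 200 * Real.log T / ((k : ℝ) + 1))
    (Real.log (T / (2 * Real.pi)) - (1 / 2 - 2 * (1 / 200)) * Real.log T - 1 / 200 * Real.log T) (cl t)

/-- the model of `|ζ|^4` -/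
def F0 (k : ℕ) (T t : ℝ) : ℝ :=
  2 * ((starRingEnd ℂ) (riemannZeta (cl t)) ^ 2 * a1 k T t ^ 2).re +
    ‖riemannZeta (cl t)‖ ^ 2 * (2 * ‖a2 k T t‖ ^ 2 - ‖a2 k T t - a1 k T t‖ ^ 2)

/-- FA: `|ζ|^4 - F0` is small in mean -/
def S_FA (k : ℕ) : Prop := ∃ C : ℝ, 0 < C ∧ ∀ᶠ T : ℝ in atTop, ∀ κ : ℕ, Rng T κ →
  IntegrableOn (fun t => om κ (κ / T) t * |Xz t ^ 4 - F0 k T t|) (Set.Ioi 0) ∧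
  IntegrableOn (fun t => om κ (κ / T) t * |F0 k T t|) (Set.Ioi 0) ∧
  IntegrableOn (fun t => om κ (κ / T) t * Xz t ^ 4) (Set.Ioi 0) ∧
  ∫ t in Set.Ioi (0:ℝ), om κ (κ / T) t * |Xz t ^ 4 - F0 k T t| ≤ C * Real.log T ^ 3 ∧
  ∫ t in Set.Ioi (0:ℝ), om κ (κ / T) t * |F0 k T t| ≤ C * Real.log T ^ 4 ∧
  ∫ t in Set.Ioi (0:ℝ), om κ (κ / T) t * Xz t ^ 4 ≤ C * Real.log T ^ 4

/-- F8: the eighth moment -/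
def S_F8 : Prop := ∀ ε : ℝ, 0 < ε → ∃ C : ℝ, 0 < C ∧ ∀ T : ℝ, 1 ≤ T →
  ∫ t in (0:ℝ)..T, Xz t ^ 8 ≤ C * T ^ (5 / 3 + ε)

/-- FB: mean square of the model, crude bounds -/
def S_FB (k : ℕ) : Prop := ∀ᶠ T : ℝ in atTop, Continuous (F0 k T) ∧
  ∫ t in (0:ℝ)..(8 * T), F0 k T t ^ 2 ≤ T ^ (19 / 10 : ℝ) ∧
  ∀ t : ℝ, 0 ≤ t → |F0 k T t| ≤ T ^ 3 * (1 + t) ^ 4

/-! ### high frequencies -/

/-- the frequency of a tuple -/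
def Lam {n : ℕ} (q : Fin n → ℕ × ℕ) : ℝ := ∑ j, lam (q j)

/-- BLK: blocks of high frequencies -/
def S_BLK : Prop := ∀ (n m : ℕ) (ε : ℝ), 1 ≤ m → 0 < ε → ∃ C : ℝ, 0 < C ∧
  ∀ (T L I1 I2 : ℝ) (φ : ℝ → ℂ) (S : Finset (Fin n → ℕ × ℕ)), 1 ≤ T → 1 ≤ L → T ≤ L ^ (2 * m) →
  IntegrableOn φ (Set.Icc 0 (8 * T)) → IntegrableOn (fun t => ‖φ t‖ ^ 2) (Set.Icc 0 (8 * T)) →
  ∫ t in Set.Icc 0 (8 * T), ‖φ t‖ ≤ I1 → ∫ t in Set.Icc 0 (8 * T), ‖φ t‖ ^ 2 ≤ I2 →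
  (∀ q ∈ S, ∀ j, 1 ≤ (q j).1 ∧ 1 ≤ (q j).2 ∧ Nat.Coprime (q j).1 (q j).2) →
  (∀ q ∈ S, ∏ j, ht (q j) ≤ L) →
  ∑ q ∈ S, ‖∫ t in Set.Icc 0 (8 * T), φ t * cexp (I * ((t * Lam q : ℝ) : ℂ))‖ ^ 2 ≤
    C * (I1 ^ (2 - 1 / (2 * (m : ℝ))) * I2 ^ (1 / (4 * (m : ℝ))) * L ^ (1 + ε))

/-- the part of `PX X` with the heights at most `Z` -/
def PL (X Z : ℕ) (u : ℝ) : ℂ := ∑ p ∈ FR Z, (cr X p u : ℂ) * cexp (I * ((u * lam p : ℝ) : ℂ))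

/-- MIN: the high frequencies are negligible -/
def S_MIN (k : ℕ) : Prop := ∀ (n : ℕ) (σ A : ℝ), 0 < σ → 1 ≤ A → ∃ ε1 δ : ℝ, 0 < ε1 ∧ 0 < δ ∧
  ∀ᶠ T : ℝ in atTop, ∀ κ : ℕ, Rng T κ → ∀ (U : ℝ) (X Z : ℕ), T ≤ U → U ≤ A * T → 1 ≤ X →
  (X : ℝ) ≤ T ^ (1 + ε1) → T ^ σ ≤ (Z : ℝ) → Z ≤ X →
  ∫ c, ‖∫ t in (T / 8)..(8 * T), ((om κ (κ / T) t * F0 k T t : ℝ) : ℂ) *
      ((∏ j, PX X (t + c j)) - ∏ j, PL X Z (t + c j))‖ ^ 2 ∂(mB n 0 U) ≤ T ^ ((n : ℝ) - δ)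

/-! ### replacement steps -/

/-- W1: the error of the model, mean over the shifts -/
def S_W1 (k : ℕ) : Prop := ∀ (n : ℕ) (A : ℝ), 1 ≤ A → ∃ C : ℝ, 0 < C ∧ ∀ᶠ T : ℝ in atTop,
  ∀ κ : ℕ, Rng T κ → ∀ U : ℝ, T ≤ U → U ≤ A * T →
  ∫ c, |(∫ t in Set.Ioi (0:ℝ), om κ (κ / T) t * (Xz t ^ 4 * ∏ j, ff (t + c j))) -
      ∫ t in Set.Ioi (0:ℝ), om κ (κ / T) t * (F0 k T t * ∏ j, ff (t + c j))| ∂(mB n 0 U) ≤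
    C * (U ^ n * Real.log T ^ (n + 3))

/-- W2: the shifted factors are replaced by Dirichlet polynomials -/
def S_W2 (k : ℕ) : Prop := ∀ (n : ℕ) (A ε : ℝ), 1 ≤ A → 0 < ε → ∀ᶠ T : ℝ in atTop,
  ∀ κ : ℕ, Rng T κ → ∀ (U : ℝ) (X : ℕ), T ≤ U → U ≤ A * T → T ^ (1 + ε) ≤ (X : ℝ) → (X : ℝ) ≤ T ^ 2 →
  ∫ c, ‖((∫ t in Set.Ioi (0:ℝ), om κ (κ / T) t * (F0 k T t * ∏ j, ff (t + c j)) : ℝ) : ℂ) -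
      ∫ t in (T / 8)..(8 * T), ((om κ (κ / T) t * F0 k T t : ℝ) : ℂ) * ∏ j, PX X (t + c j)‖
      ∂(mB n 0 U) ≤ T ^ ((n : ℝ) - 1 / 4)

/-! ### low frequencies -/

/-- CRA: the coefficients of small height -/
def S_CRA : Prop := ∀ ε : ℝ, 0 < ε → ∃ C : ℝ, 0 < C ∧ ∀ (X : ℕ) (p : ℕ × ℕ) (u : ℝ), 1 ≤ p.1 → 1 ≤ p.2 →
  1 ≤ u → u ^ (1 + ε) ≤ (X : ℝ) → ht p ≤ u ^ (1 / 2 : ℝ) →
  |√(ht p) * cr X p u - (Real.log (u / (2 * Real.pi * ht p)) + 2 * Real.eulerMascheroniConstant)| ≤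
    C * u ^ (-(1 / 4) : ℝ)

/-- OMX: comparison of two Gamma densities -/
def S_OMX : Prop :=
  (∀ m : ℕ, ∃ C : ℝ, 0 < C ∧ ∀ᶠ T : ℝ in atTop, ∀ κ : ℕ, Rng T κ → ∀ t : ℝ, 0 < t →
    |(t - T) / T| ^ m * om (2 * κ) ((2 * κ : ℕ) / T) t ≤ C / Real.log T ^ m * om κ (κ / T) t) ∧
  ∀ A : ℝ, ∀ᶠ T : ℝ in atTop, ∀ κ : ℕ, Rng T κ → ∀ t : ℝ, 0 < t → T / 2 ≤ |t - T| →
    om (2 * κ) ((2 * κ : ℕ) / T) t ≤ T ^ (-A) * om κ (κ / T) t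

/-- ORT: near orthogonality of the low frequencies over the box -/
def S_ORT : Prop := ∀ (n Z : ℕ) (U : ℝ) (a : (Fin n → ℕ × ℕ) → ℂ), 1 ≤ Z →
  4 * (Z : ℝ) ^ (2 * n + 1) ≤ U →
  ∫ c, ‖∑ q ∈ Fintype.piFinset (fun _ : Fin n => FR Z), a q * ∏ j, cexp (I * ((c j * lam (q j) : ℝ) : ℂ))‖ ^ 2
      ∂(mB n 0 U) ≤ 2 * U ^ n * ∑ q ∈ Fintype.piFinset (fun _ : Fin n => FR Z), ‖a q‖ ^ 2

/-- ARI: the arithmetic sum over the tuples -/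
def S_ARI : Prop := ∀ (n : ℕ) (s : ℝ), s < 1 / 2 → ∃ C : ℝ, 0 < C ∧ ∀ Z : ℕ,
  ∑ q ∈ Fintype.piFinset (fun _ : Fin n => FR Z), (∏ j, ht (q j)) ^ (-2 + s) *
    (Nat.gcd (∏ j, (q j).1) (∏ j, (q j).2) : ℝ) ^ 2 ≤ C

/-- ARS: the two arithmetic sums in the twisted fourth moment -/
def S_ARS : Prop := ∀ ε : ℝ, 0 < ε → ∃ C : ℝ, 0 < C ∧ ∀ (M h l : ℕ), 1 ≤ M → 1 ≤ h → 1 ≤ l →
  (∑ m ∈ Icc 1 M, ∑ n ∈ Icc 1 M, (if l ∣ m * n * h then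
      ((m * n * h / l).divisors.card : ℝ) / ((m : ℝ) * n * h) else 0) ≤
    C * (1 + Real.log M) ^ 4 * (((h * l : ℕ) : ℝ) ^ ε * (Nat.gcd h l : ℝ) / ((h : ℝ) * l))) ∧
  ∑ m ∈ Icc 1 M, ∑ n ∈ Icc 1 M, (Nat.gcd (m * h) (n * l) : ℝ) / ((m : ℝ) * h * (n * l)) ≤
    C * (1 + Real.log M) ^ 3 * (((h * l : ℕ) : ℝ) ^ ε * (Nat.gcd h l : ℝ) / ((h : ℝ) * l))

/-- UB0: the twisted moment of the model, upper bound -/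
def S_UB0 (k : ℕ) : Prop := ∃ η1 η2 : ℝ, 0 < η1 ∧ 0 < η2 ∧ ∀ ε : ℝ, 0 < ε → ∃ C : ℝ, 0 < C ∧
  ∀ᶠ T : ℝ in atTop, ∀ (T' : ℝ) (κ : ℕ), T / 2 ≤ T' → T' ≤ 2 * T → Rng T' κ →
  ∀ h l : ℕ, 1 ≤ h → 1 ≤ l → (h : ℝ) ≤ T ^ η1 → (l : ℝ) ≤ T ^ η1 →
  ‖∫ t in Set.Ioi (0:ℝ), ((om κ (κ / T') t * F0 k T t : ℝ) : ℂ) * mh t (h, l)‖ ≤
    C * (Real.log T ^ 4 * (((h * l : ℕ) : ℝ) ^ ε * (Nat.gcd h l : ℝ) / ((h : ℝ) * l)) + T ^ (-η2))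

/-- UB: the same with powers of `(t-T)/T` -/
def S_UB (k : ℕ) : Prop := ∃ η1 η2 : ℝ, 0 < η1 ∧ 0 < η2 ∧ ∀ (d : ℕ) (ε : ℝ), 0 < ε → ∃ C : ℝ, 0 < C ∧
  ∀ᶠ T : ℝ in atTop, ∀ κ : ℕ, Rng T κ → (κ : ℝ) ≤ 3 * Real.log T ^ 2 →
  ∀ h l : ℕ, 1 ≤ h → 1 ≤ l → (h : ℝ) ≤ T ^ η1 → (l : ℝ) ≤ T ^ η1 →
  ‖∫ t in Set.Ioi (0:ℝ), ((om κ (κ / T) t * (((t - T) / T) ^ d * F0 k T t) : ℝ) : ℂ) * mh t (h, l)‖ ≤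
    C * (Real.log T ^ 4 * (((h * l : ℕ) : ℝ) ^ ε * (Nat.gcd h l : ℝ) / ((h : ℝ) * l)) + T ^ (-η2))

/-- AS: the twisted fourth moment, fixed twist -/
def S_AS : Prop := ∀ x : ℕ × ℕ, x.1 ≠ 0 → x.2 ≠ 0 → ∀ ε : ℝ, 0 < ε → ∀ᶠ T : ℝ in atTop, ∀ κ : ℕ, Rng T κ →
  ‖(∫ t in Set.Ioi (0:ℝ), ((om κ (κ / T) t * Xz t ^ 4 : ℝ) : ℂ) * mh t x) -
    ((w2 x / (2 * Real.pi ^ 2) * Real.log T ^ 4 : ℝ) : ℂ)‖ ≤ ε * Real.log T ^ 4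

/-! ### Taylor expansion in the window -/

/-- the coefficients: `ht^(-1/2)`, the last one times `log ht` -/
def kc {n : ℕ} (i : Fin (n + 2)) (p : ℕ × ℕ) : ℝ :=
  if i = Fin.last (n + 1) then (√(ht p))⁻¹ * Real.log (ht p) else (√(ht p))⁻¹

/-- the trigonometric polynomials -/
def KK {n : ℕ} (Z : ℕ) (i : Fin (n + 2)) (u : ℝ) : ℂ :=
  ∑ p ∈ FR Z, (kc i p : ℂ) * cexp (I * ((u * lam p : ℝ) : ℂ))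

/-- the exponents of `(t-T)/T` -/
def ke {n : ℕ} (i : Fin (n + 2)) : ℕ := if i = Fin.last (n + 1) then 0 else i

/-- the slowly varying coefficients -/
def kg {n : ℕ} (T : ℝ) (i : Fin (n + 2)) (c : ℝ) : ℝ :=
  if i = Fin.last (n + 1) then -1
  else if (i : ℕ) = 0 then Real.log ((T + c) / (2 * Real.pi)) + 2 * Real.eulerMascheroniConstant
  else (-1) ^ ((i : ℕ) + 1) * (T / (T + c)) ^ (i : ℕ) / (i : ℕ)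

/-- TAY: the low part, with the coefficients expanded at `t = T` -/
def S_TAY (k : ℕ) : Prop := ∀ (n : ℕ) (A : ℝ), 1 ≤ A → ∃ σ1 C : ℝ, 0 < σ1 ∧ 0 < C ∧ ∀ σ : ℝ, 0 < σ →
  σ ≤ σ1 → ∀ ε : ℝ, 0 < ε → ∀ᶠ T : ℝ in atTop, ∀ κ : ℕ, Rng T κ → Rng T (2 * κ) →
  ∀ (U : ℝ) (X Z : ℕ), T ≤ U → U ≤ A * T → T ^ (1 + ε) ≤ (X : ℝ) → Z = ⌊T ^ σ⌋₊ →
  ∫ c, ‖(∫ t in (T / 8)..(8 * T), ((om (2 * κ) ((2 * κ : ℕ) / T) t * F0 k T t : ℝ) : ℂ) *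
      ∏ j, PL X Z (t + c j)) -
    ∑ a : Fin n → Fin (n + 2), ((∏ j, kg T (a j) (c j) : ℝ) : ℂ) *
      ∫ t in Set.Ioi (0:ℝ), ((om (2 * κ) ((2 * κ : ℕ) / T) t *
        (((t - T) / T) ^ (∑ j, ke (a j)) * F0 k T t) : ℝ) : ℂ) * ∏ j, KK Z (a j) (t + c j)‖ ∂(mB n 0 U) ≤
    C * (U ^ n * Real.log T ^ (n + 3))

/-! ### the limit -/

/-- the truncated main term -/
def BY (n Y : ℕ) (c : Fin n → ℝ) : ℂ :=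
  ∑ q ∈ (Fintype.piFinset fun _ : Fin n => FR Y).filter (fun q => ∏ j, ht (q j) ≤ Y),
    (w2 (∏ j, (q j).1, ∏ j, (q j).2) : ℂ) * ∏ j, cexp (I * ((c j * lam (q j) : ℝ) : ℂ))

/-- the local density -/
def loc {n : ℕ} (c : Fin n → ℝ) (p : ℕ) : ℝ :=
  (1 - 1 / (p : ℝ)) ^ (n + 4) * ∫ θ in (0:ℝ)..1,
    1 / (‖1 - cexp (2 * Real.pi * I * θ) * (p : ℂ) ^ (-(1 / 2) : ℂ)‖ ^ 4 *
      ∏ j, ‖1 - cexp (2 * Real.pi * I * θ) * (p : ℂ) ^ (-(1 / 2 + I * c j))‖ ^ 2)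

/-- the product of the local densities over the primes up to `y` -/
def SS {n : ℕ} (y : ℝ) (c : Fin n → ℝ) : ℝ :=
  ∏ p ∈ (Finset.range (⌊y⌋₊ + 1)).filter Nat.Prime, loc c p

/-- EUL: the truncated main term against the product -/
def S_EUL : Prop := ∀ (n : ℕ) (ε : ℝ), 0 < ε → ∃ Y₀ : ℕ, ∀ Y : ℕ, Y₀ ≤ Y → ∀ᶠ U : ℝ in atTop,
  ∫ c, ‖((6 / Real.pi ^ 2 : ℝ) : ℂ) * BY n Y c - ((SS (Real.log U) c : ℝ) : ℂ)‖ ∂(mB n 0 U) ≤ ε * U ^ n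

/-- the window mean -/
def WW {n : ℕ} (κ : ℕ) (T : ℝ) (c : Fin n → ℝ) : ℝ :=
  ∫ t in Set.Ioi (0:ℝ), om κ (κ / T) t * (Xz t ^ 4 * ∏ j, ff (t + c j))

/-- WIN: the asymptotics in the windows -/
def S_WIN : Prop := ∀ (n : ℕ) (A ε : ℝ), 1 ≤ A → 0 < ε → ∃ Y₀ : ℕ, ∀ Y : ℕ, Y₀ ≤ Y →
  ∀ᶠ T : ℝ in atTop, ∀ κ : ℕ, Rng T κ → Rng T (2 * κ) → (2 * κ : ℝ) ≤ 3 * Real.log T ^ 2 →
  ∀ U : ℝ, T ≤ U → U ≤ A * T →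
  ∫ c, ‖((WW (2 * κ) T c / Real.log T ^ (n + 4) : ℝ) : ℂ) - ((1 / (2 * Real.pi ^ 2) : ℝ) : ℂ) * BY n Y c‖
    ∂(mB n 0 U) ≤ ε * U ^ n

/-- SHP: the sharp cut-off against the windows -/
def S_SHP : Prop := ∀ n : ℕ, ∃ C : ℝ, 0 < C ∧ ∀ ε : ℝ, 0 < ε → ε ≤ 1 / 4 → ∀ᶠ T : ℝ in atTop,
  ∀ κ : ℕ, Rng T κ →
  ∫ c, |(∫ t in (0:ℝ)..T, Xz t ^ 4 * ∏ j, ff (t + c j)) - ∫ T' in (ε * T)..T, WW κ T' c| ∂(mB n 0 T) ≤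
    C * ε * (T ^ (n + 1) * Real.log T ^ (n + 4))

/-- the main theorem -/
def S_MAIN : Prop := ∀ (n : ℕ) (ε : ℝ), 0 < ε → ∀ᶠ T : ℝ in atTop,
  ∫ c, |(∫ t in (0:ℝ)..T, Xz t ^ 4 * ∏ j, ff (t + c j)) / (T * Real.log T ^ (n + 4)) -
      1 / 12 * SS (Real.log T) c| ∂(mB n 0 T) ≤ ε * T ^ n

end

end Pool.Agent.Y969.SM
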