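import Pool.Agent.Y969.SM.Stm

set_option autoImplicit false

/-! Project SX: the two arithmetic comparisons behind S_AS, and the pieces of S_EUL. -/

namespace Pool.Agent.Y969.SM

open Finset Filter Topology MeasureTheory Complex
open Pool.Agent.Y969.GP (ff ht lam FR PX cr V mB)
open Pool.Agent.H306R2.SM (om cl Yf)
open Pool.Agent.H262R4.TM (Rng Ck)

noncomputable section

/-- slowly varying weights supported on `m ≤ M` -/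
def Wt (K L : ℝ) (M : ℕ) (f : ℕ → ℝ) : Prop := (∀ n, |f n| ≤ 1) ∧ (∀ m, M < m → f m = 0) ∧
  ∀ a m : ℕ, 1 ≤ a → 1 ≤ m → |f (a * m) - f m| ≤ K * Real.log a / L

/-- the kernel `(m,n)/(mn)` (equal to `TH806.N4.gk` by definition) -/
def gk (m n : ℕ) : ℝ := (Nat.gcd m n : ℝ) / ((m:ℝ) * n)

/-- `log ((m,n)²/(mn))` (equal to `TH806.N4.gl` by definition) -/
def gl (m n : ℕ) : ℝ := Real.log ((Nat.gcd m n : ℝ) ^ 2 / ((m:ℝ) * n))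

/-- A1: twisted divisor sums -/
def S_A1 : Prop := ∀ h l : ℕ, 1 ≤ h → 1 ≤ l → Nat.Coprime h l → ∀ K : ℝ, 0 < K → ∃ C : ℝ, 0 < C ∧
  ∀ (M : ℕ) (L : ℝ) (f g : ℕ → ℝ), 1 ≤ M → 1 ≤ L → Real.log M ≤ L → Wt K L M f → Wt K L M g →
  |∑ m ∈ Icc 1 M, ∑ n ∈ Icc 1 M, f m * g n * (if l ∣ m * n * h then
      ((m * n * h / l).divisors.card : ℝ) / ((m : ℝ) * n * h) else 0) -
    w2 (h, l) * ∑ m ∈ Icc 1 M, ∑ n ∈ Icc 1 M, f m * g n * (((m * n).divisors.card : ℝ) / ((m : ℝ) * n))| ≤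
    C * L ^ 3

/-- A2: twisted gcd sums -/
def S_A2 : Prop := ∀ h l : ℕ, 1 ≤ h → 1 ≤ l → Nat.Coprime h l → ∀ K : ℝ, 0 < K → ∃ C : ℝ, 0 < C ∧
  ∀ (M : ℕ) (L : ℝ) (f g : ℕ → ℝ), 1 ≤ M → 1 ≤ L → Real.log M ≤ L → Wt K L M f → Wt K L M g →
  |∑ m ∈ Icc 1 M, ∑ n ∈ Icc 1 M, f m * g n * (gk (m * h) (n * l) * (L + gl (m * h) (n * l))) -
    w2 (h, l) * ∑ m ∈ Icc 1 M, ∑ n ∈ Icc 1 M, f m * g n * (gk m n * (L + gl m n))| ≤ C * L ^ 3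

/-! ### the pieces of S_EUL -/

/-- the exponents: `∑ |k_j| + |∑ k_j|` -/
def kx {n : ℕ} (k : Fin n → ℤ) : ℕ := (∑ j, (k j).natAbs) + (∑ j, k j).natAbs

/-- the coefficient of the local factor -/
def lc {n : ℕ} (p : ℕ) (k : Fin n → ℤ) : ℝ :=
  (p : ℝ) ^ (-((kx k : ℝ) / 2)) * (1 + ((∑ j, k j).natAbs : ℝ) * (((p:ℝ) - 1) / ((p:ℝ) + 1)))

/-- LOC: the local density as a Fourier series -/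
def S_LOC : Prop := ∀ (n p : ℕ), p.Prime → ∀ c : Fin n → ℝ,
  (Summable fun k : Fin n → ℤ => lc p k) ∧
  ((loc c p : ℝ) : ℂ) = (1 - 1 / (p : ℂ) ^ 2) * ∑' k : Fin n → ℤ, (lc p k : ℂ) *
    ∏ j, cexp (-(I * ((c j * Real.log p * k j : ℝ) : ℂ)))

/-- LSM: bounds for the local sums -/
def S_LSM : Prop := ∀ n : ℕ, ∃ C : ℝ, 0 < C ∧ ∀ p : ℕ, p.Prime →
  (Summable fun k : Fin n → ℤ => lc p k * (p : ℝ) ^ ((1 / 4 : ℝ) * ∑ j, ((k j).natAbs : ℝ))) ∧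
  ∑' k : Fin n → ℤ, lc p k * (p : ℝ) ^ ((1 / 4 : ℝ) * ∑ j, ((k j).natAbs : ℝ)) ≤ 1 + C * (p : ℝ) ^ (-(1 / 2) : ℝ)

open Classical in
/-- EUT: the product of the local sums against the truncated sum over the tuples -/
def S_EUT : Prop := ∀ n : ℕ, ∃ C : ℝ, 0 < C ∧ ∀ (y W : ℕ) (c : Fin n → ℝ), 1 ≤ y → 1 ≤ W →
  ‖(∏ p ∈ (Finset.range (y + 1)).filter Nat.Prime, ∑' k : Fin n → ℤ, (lc p k : ℂ) *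
      ∏ j, cexp (-(I * ((c j * Real.log p * k j : ℝ) : ℂ)))) -
    ∑ q ∈ (Fintype.piFinset fun _ : Fin n => FR W).filter
        (fun q => ∏ j, ht (q j) ≤ W ∧ ∀ p : ℕ, p.Prime → p ∣ ∏ j, ((q j).1 * (q j).2) → p ≤ y),
      (w2 (∏ j, (q j).1, ∏ j, (q j).2) : ℂ) * ∏ j, cexp (I * ((c j * lam (q j) : ℝ) : ℂ))‖ ≤
    (W : ℝ) ^ (-(1 / 4) : ℝ) * Real.exp (C * √y)

/-- W2B: the size of the weights -/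
def S_W2B : Prop := ∀ ε : ℝ, 0 < ε → ∃ C : ℝ, 0 < C ∧ ∀ h l : ℕ, 1 ≤ h → 1 ≤ l →
  0 ≤ w2 (h, l) ∧ w2 (h, l) ≤ C * (((h : ℝ) * l) ^ (-1 + ε) * (Nat.gcd h l : ℝ))

/-! ### the terms of the Taylor expansion -/

/-- the term of the index `a` -/
def TA (k : ℕ) {n : ℕ} (Z : ℕ) (a : Fin n → Fin (n + 2)) (κ : ℕ) (T : ℝ) (c : Fin n → ℝ) : ℂ :=
  ∫ t in Set.Ioi (0:ℝ), ((om κ (κ / T) t * (((t - T) / T) ^ (∑ j, ke (a j)) * F0 k T t) : ℝ) : ℂ) *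
    ∏ j, KK Z (a j) (t + c j)

/-- TL2: mean square of the terms -/
def S_TL2 (k : ℕ) : Prop := ∀ (n : ℕ) (A : ℝ), 1 ≤ A → ∃ σ1 C : ℝ, 0 < σ1 ∧ 0 < C ∧ ∀ σ : ℝ, 0 < σ →
  σ ≤ σ1 → ∀ᶠ T : ℝ in atTop, ∀ κ : ℕ, Rng T κ → (κ : ℝ) ≤ 3 * Real.log T ^ 2 →
  ∀ (U : ℝ) (Z : ℕ), T ≤ U → U ≤ A * T → Z = ⌊T ^ σ⌋₊ → ∀ a : Fin n → Fin (n + 2),
  ∫ c, ‖TA k Z a κ T c‖ ^ 2 ∂(mB n 0 U) ≤ C * (U ^ n * Real.log T ^ 8)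

/-- T0: the main term -/
def S_T0 (k : ℕ) : Prop := ∀ (n : ℕ) (A : ℝ), 1 ≤ A → ∃ σ1 : ℝ, 0 < σ1 ∧ ∀ σ : ℝ, 0 < σ → σ ≤ σ1 →
  ∀ ε : ℝ, 0 < ε → ∃ Y₀ : ℕ, ∀ Y : ℕ, Y₀ ≤ Y → ∀ᶠ T : ℝ in atTop, ∀ κ : ℕ, Rng T κ →
  (κ : ℝ) ≤ 3 * Real.log T ^ 2 → ∀ (U : ℝ) (Z : ℕ), T ≤ U → U ≤ A * T → Z = ⌊T ^ σ⌋₊ →
  ∫ c, ‖TA k Z (fun _ : Fin n => 0) κ T c - ((Real.log T ^ 4 / (2 * Real.pi ^ 2) : ℝ) : ℂ) * BY n Y c‖ ^ 2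
    ∂(mB n 0 U) ≤ ε * (U ^ n * Real.log T ^ 8)

/-- CTW: continuity of the window means -/
def S_CTW : Prop := ∀ n κ : ℕ, 1 ≤ κ →
  ContinuousOn (fun x : ℝ × (Fin n → ℝ) => WW κ x.1 x.2) (Set.Ioi 0 ×ˢ Set.univ)

end

end Pool.Agent.Y969.SM
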