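import Pool.Agent.Y969.SM.Stm2

set_option autoImplicit false

/-! Project SX: auxiliary facts on the box measure and continuity. -/

namespace Pool.Agent.Y969.SM

open Finset Filter Topology MeasureTheory Complex
open Pool.Agent.Y969.GP (ff ht lam FR PX cr V mB)
open Pool.Agent.H306R2.SM (om cl Yf)
open Pool.Agent.H262R4.TM (Rng Ck)

noncomputable section

lemma mB_eq (n : ℕ) (a T : ℝ) :
    mB n a T = (volume : Measure (Fin n → ℝ)).restrict (Set.Icc (fun _ => a) (fun _ => T)) := by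
  unfold mB
  rw [← Set.pi_univ_Icc, volume_pi, Measure.restrict_pi_pi]

lemma mB_int {n : ℕ} {E : Type*} [NormedAddCommGroup E] {f : (Fin n → ℝ) → E} (hf : Continuous f) (a T : ℝ) :
    Integrable f (mB n a T) := by
  rw [mB_eq]
  exact hf.continuousOn.integrableOn_compact isCompact_Icc

instance mB_fin (n : ℕ) (a T : ℝ) : IsFiniteMeasure (mB n a T) := by
  rw [mB_eq]
  exact ⟨by rw [Measure.restrict_apply_univ]; exact isCompact_Icc.measure_lt_top⟩

lemma mB_mass {n : ℕ} {T : ℝ} (hT : 0 ≤ T) : (mB n 0 T).real Set.univ = T ^ n := by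
  rw [mB_eq, measureReal_restrict_apply_univ, measureReal_def, Real.volume_Icc_pi_toReal]
  · simp
  · intro i; exact hT

lemma mB_const {n : ℕ} {T : ℝ} (hT : 0 ≤ T) (b : ℝ) : ∫ _c, b ∂(mB n 0 T) = b * T ^ n := by
  rw [integral_const, mB_mass hT, smul_eq_mul, mul_comm]

/-- Cauchy–Schwarz on the box -/
lemma mB_cs {n : ℕ} {T : ℝ} (hT : 0 ≤ T) {f : (Fin n → ℝ) → ℂ} (hf : Continuous f) {b : ℝ} (hb : 0 ≤ b)
    (h : ∫ c, ‖f c‖ ^ 2 ∂(mB n 0 T) ≤ b ^ 2 * T ^ n) : ∫ c, ‖f c‖ ∂(mB n 0 T) ≤ b * T ^ n := by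
  have i2 : Integrable (fun c => ‖f c‖ ^ 2) (mB n 0 T) := mB_int (hf.norm.pow 2) 0 T
  rcases hb.eq_or_lt with rfl | hb0
  · have h0 : ∫ c, ‖f c‖ ^ 2 ∂(mB n 0 T) ≤ 0 := by simpa using h
    have h1 : ∫ c, ‖f c‖ ^ 2 ∂(mB n 0 T) = 0 := le_antisymm h0 (integral_nonneg fun c => by positivity)
    rw [integral_eq_zero_iff_of_nonneg (f := fun c => ‖f c‖ ^ 2) (fun c => sq_nonneg _) i2] at h1
    have h2 : ∫ c, ‖f c‖ ∂(mB n 0 T) = 0 := by
      rw [integral_eq_zero_iff_of_nonneg (fun c => norm_nonneg _) (mB_int hf.norm 0 T)]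
      filter_upwards [h1] with c hc
      simpa using hc
    rw [h2]; simp
  · have i1 : Integrable (fun c => (2 * b)⁻¹ * ‖f c‖ ^ 2 + b / 2) (mB n 0 T) :=
      mB_int (((hf.norm.pow 2).const_mul _).add continuous_const) 0 T
    calc ∫ c, ‖f c‖ ∂(mB n 0 T) ≤ ∫ c, ((2 * b)⁻¹ * ‖f c‖ ^ 2 + b / 2) ∂(mB n 0 T) := by
          refine integral_mono (mB_int hf.norm 0 T) i1 fun c => ?_
          have h3 : 0 ≤ (‖f c‖ - b) ^ 2 / (2 * b) := by positivity
          have h4 : (2 * b)⁻¹ * ‖f c‖ ^ 2 + b / 2 - ‖f c‖ = (‖f c‖ - b) ^ 2 / (2 * b) := by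
            field_simp; ring
          linarith
      _ = (2 * b)⁻¹ * (∫ c, ‖f c‖ ^ 2 ∂(mB n 0 T)) + b / 2 * T ^ n := by
          rw [integral_add (i2.const_mul _) (integrable_const _), integral_const_mul,
            mB_const hT]
      _ ≤ (2 * b)⁻¹ * (b ^ 2 * T ^ n) + b / 2 * T ^ n := by gcongr
      _ = b * T ^ n := by field_simp; ring

lemma zeta_line_cont : Continuous fun u : ℝ => riemannZeta (1 / 2 + I * u) := by
  rw [continuous_iff_continuousAt]
  intro u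
  have h1 : (1 / 2 + I * u : ℂ) ≠ 1 := by
    intro h
    have := congrArg Complex.re h
    norm_num at this
  exact ContinuousAt.comp (f := fun u : ℝ => (1 / 2 + I * u : ℂ)) (differentiableAt_riemannZeta h1).continuousAt
    (by fun_prop)

lemma ff_cont : Continuous ff := by
  unfold ff
  exact zeta_line_cont.norm.pow 2

lemma Xz_eq (t : ℝ) : Xz t = ‖riemannZeta (1 / 2 + I * t)‖ := by
  unfold Xz cl; rw [mul_comm]

lemma Xz_cont : Continuous Xz := by
  have : Xz = fun t : ℝ => ‖riemannZeta (1 / 2 + I * t)‖ := funext Xz_eq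
  rw [this]
  exact zeta_line_cont.norm

lemma loc_ne {p : ℕ} (hp : 2 ≤ p) (θ : ℝ) (s : ℂ) (hs : s.re = -(1 / 2)) :
    1 - cexp (2 * Real.pi * I * θ) * (p : ℂ) ^ s ≠ 0 := by
  intro h
  have h1 : cexp (2 * Real.pi * I * θ) * (p : ℂ) ^ s = 1 := (sub_eq_zero.mp h).symm
  have h2 := congrArg norm h1
  rw [norm_mul, norm_one] at h2
  have h3 : (2 * Real.pi * I * θ : ℂ) = ((2 * Real.pi * θ : ℝ) : ℂ) * I := by push_cast; ring
  rw [h3, Complex.norm_exp_ofReal_mul_I, one_mul, Complex.norm_natCast_cpow_of_pos (by omega), hs] at h2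
  have h4 : (p : ℝ) ^ (-(1 / 2) : ℝ) < 1 := Real.rpow_lt_one_of_one_lt_of_neg (by exact_mod_cast hp) (by norm_num)
  linarith

lemma loc_cont {n : ℕ} {p : ℕ} (hp : 2 ≤ p) : Continuous fun c : Fin n → ℝ => loc c p := by
  unfold loc
  refine continuous_const.mul ?_
  refine intervalIntegral.continuous_parametric_intervalIntegral_of_continuous' ?_ _ _
  have hp0 : (p : ℂ) ≠ 0 := by exact_mod_cast (by omega : p ≠ 0)
  have hne : ∀ (θ : ℝ) (s : ℂ), s.re = -(1 / 2) → ‖1 - cexp (2 * Real.pi * I * θ) * (p : ℂ) ^ s‖ ≠ 0 :=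
    fun θ s hs => norm_ne_zero_iff.mpr (loc_ne hp θ s hs)
  refine continuous_const.div ?_ ?_
  · refine Continuous.mul ?_ ?_
    · refine (Continuous.norm ?_).pow 4
      fun_prop
    · refine continuous_finsetProd _ fun j _ => (Continuous.norm ?_).pow 2
      refine continuous_const.sub (Continuous.mul (by fun_prop) ?_)
      refine Continuous.const_cpow (by fun_prop) (Or.inl hp0)
  · rintro ⟨c, θ⟩
    refine mul_ne_zero (pow_ne_zero _ (hne θ _ ?_)) (Finset.prod_ne_zero_iff.mpr fun j _ => pow_ne_zero _ (hne θ _ ?_))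
    · norm_num
    · simp

lemma SS_cont {n : ℕ} (y : ℝ) : Continuous fun c : Fin n → ℝ => SS y c := by
  unfold SS
  refine continuous_finsetProd _ fun p hp => loc_cont ?_
  rw [Finset.mem_filter] at hp
  exact hp.2.two_le

lemma BY_cont (n Y : ℕ) : Continuous (BY n Y) := by
  unfold BY
  refine continuous_finsetSum _ fun q _ => continuous_const.mul (continuous_finsetProd _ fun j _ => ?_)
  fun_prop

lemma BY_bd (n Y : ℕ) : ∃ C : ℝ, 0 ≤ C ∧ ∀ c, ‖BY n Y c‖ ≤ C := by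
  refine ⟨∑ q ∈ (Fintype.piFinset fun _ : Fin n => FR Y).filter (fun q => ∏ j, ht (q j) ≤ Y),
    |w2 (∏ j, (q j).1, ∏ j, (q j).2)|, by positivity, fun c => ?_⟩
  unfold BY
  refine (norm_sum_le _ _).trans (Finset.sum_le_sum fun q _ => ?_)
  rw [norm_mul, norm_prod, Complex.norm_real, Real.norm_eq_abs]
  have : ∏ j, ‖cexp (I * ((c j * lam (q j) : ℝ) : ℂ))‖ = 1 := by
    refine Finset.prod_eq_one fun j _ => ?_
    rw [mul_comm, Complex.norm_exp_ofReal_mul_I]
  rw [this, mul_one]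

lemma I_cont {n : ℕ} (T : ℝ) : Continuous fun c : Fin n → ℝ => ∫ t in (0:ℝ)..T, Xz t ^ 4 * ∏ j, ff (t + c j) := by
  refine intervalIntegral.continuous_parametric_intervalIntegral_of_continuous' ?_ _ _
  refine ((Xz_cont.comp continuous_snd).pow 4).mul (continuous_finsetProd _ fun j _ => ?_)
  exact ff_cont.comp (by fun_prop)

lemma Rng_ok {e : ℝ} (he : 0 < e) (_he1 : e ≤ 1) : ∀ᶠ T : ℝ in atTop, ∀ T' : ℝ, e * T ≤ T' → T' ≤ T →
    Rng T' ⌈6 / 5 * Real.log T ^ 2⌉₊ ∧ Rng T' (2 * ⌈6 / 5 * Real.log T ^ 2⌉₊) ∧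
    (2 * ⌈6 / 5 * Real.log T ^ 2⌉₊ : ℝ) ≤ 3 * Real.log T' ^ 2 := by
  filter_upwards [eventually_gt_atTop (0:ℝ), Real.tendsto_log_atTop.eventually_ge_atTop 10,
    Real.tendsto_log_atTop.eventually_ge_atTop (-(100 * Real.log e))] with T hT0 hL hL2
  intro T' h1 h2
  have heT : 0 < e * T := by positivity
  have l1 : Real.log T' ≤ Real.log T := Real.log_le_log (heT.trans_le h1) h2
  have l2 : 99 / 100 * Real.log T ≤ Real.log T' := by
    have := Real.log_le_log heT h1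
    rw [Real.log_mul he.ne' hT0.ne'] at this
    linarith
  set L := Real.log T
  set L' := Real.log T'
  have hc1 := Nat.le_ceil (6 / 5 * L ^ 2)
  have hc2 := (Nat.ceil_lt_add_one (by positivity : 0 ≤ 6 / 5 * L ^ 2)).le
  set k := ⌈6 / 5 * L ^ 2⌉₊
  have hLL : 100 ≤ L ^ 2 := by nlinarith
  have q1 : L' ^ 2 ≤ L ^ 2 := by
    have : 0 ≤ L' := by linarith
    nlinarith
  have q2 : 98 / 100 * L ^ 2 ≤ L' ^ 2 := by
    have h3 : (99 / 100 * L) ^ 2 ≤ L' ^ 2 := pow_le_pow_left₀ (by linarith) l2 2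
    nlinarith
  refine ⟨⟨by linarith, by linarith⟩, ⟨by push_cast; linarith, by push_cast; linarith⟩, by linarith⟩

end

end Pool.Agent.Y969.SM
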