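import Pool.Agent.Y969.SM.Stm
import Pool.Agent.TH806.TwS

set_option autoImplicit false

/-! Project SX: the statement about the twisted second moment (needs the library around `TH806.TwS`). -/

namespace Pool.Agent.Y969.SM

open Finset Filter Topology MeasureTheory Complex
open Pool.Agent.H306R2.SM (om cl Yf)
open Pool.Agent.H262R4.TM (Rng Ck)
open Pool.Agent.TH806 (DP BF)
open Pool.Agent.W184.NZ (mh wz)

noncomputable section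

/-- TWC: the twisted second moment of a long polynomial, complex form -/
def S_TWC : Prop := ∀ θ : ℝ, θ < 14 / 27 → ∃ η : ℝ, 0 < η ∧ ∀ᶠ T : ℝ in atTop, ∀ κ : ℕ, Rng T κ →
  ∀ (M B : ℕ) (f : ℕ → ℂ), (∀ n, n ≠ 0 → ‖f n‖ ≤ 1) → ((M * B : ℕ) : ℝ) ≤ T ^ θ →
  ∀ x : ℕ × ℕ, x.1 ≠ 0 → x.2 ≠ 0 → x.1 ≤ B → x.2 ≤ B →
  ‖(∫ t in Set.Ioi (0:ℝ), ((wz κ T t * ‖DP f M t‖ ^ 2 : ℝ) : ℂ) * mh t x) - BF κ T f M x‖ ≤ 4 * T ^ (-η)

end

end Pool.Agent.Y969.SM
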