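import Pool.Agent.Y969.SM.Bas

set_option autoImplicit false

/-! Project SX: from the windows to the main theorem. -/

namespace Pool.Agent.Y969.SM

open Finset Filter Topology MeasureTheory Complex
open Pool.Agent.Y969.GP (ff ht lam FR PX cr V mB)
open Pool.Agent.H306R2.SM (om cl Yf)
open Pool.Agent.H262R4.TM (Rng Ck)

noncomputable section

attribute [local irreducible] WW SS BY Xz ff

/-- the window mean, continued -/
def Wm {n : ℕ} (κ : ℕ) (a : ℝ) (x : ℝ × (Fin n → ℝ)) : ℝ := WW κ (max x.1 a) x.2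

lemma Wm_cont (h4 : S_CTW) {n κ : ℕ} (hκ : 1 ≤ κ) {a : ℝ} (ha : 0 < a) : Continuous (Wm (n := n) κ a) := by
  have h := h4 n κ hκ
  have e : Wm (n := n) κ a = (fun x : ℝ × (Fin n → ℝ) => WW κ x.1 x.2) ∘ fun x => (max x.1 a, x.2) := rfl
  rw [e]
  refine h.comp_continuous (by fun_prop) fun x => ?_
  exact ⟨lt_of_lt_of_le ha (le_max_right _ _), trivial⟩

lemma J_eq {n κ : ℕ} {a T : ℝ} (haT : a ≤ T) (c : Fin n → ℝ) :
    ∫ T' in a..T, WW κ T' c = ∫ T' in a..T, Wm κ a (T', c) := by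
  refine intervalIntegral.integral_congr fun x hx => ?_
  rw [Set.uIcc_of_le haT] at hx
  simp only [Wm, max_eq_left hx.1]

/-- the integral over the windows -/
lemma J_bd (h4 : S_CTW) {n κ : ℕ} (hκ : 1 ≤ κ) {a T ε : ℝ} (ha : Real.exp 1 ≤ a) (haT : a ≤ T) (hε : 0 ≤ ε)
    {B : (Fin n → ℝ) → ℂ} (hB : Continuous B)
    (hw : ∀ T', a ≤ T' → T' ≤ T →
      ∫ c, ‖((WW κ T' c / Real.log T' ^ (n + 4) : ℝ) : ℂ) - B c‖ ∂(mB n 0 T) ≤ ε * T ^ n) :
    ∫ c, ‖((∫ T' in a..T, WW κ T' c : ℝ) : ℂ) - ((∫ T' in a..T, Real.log T' ^ (n + 4) : ℝ) : ℂ) * B c‖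
      ∂(mB n 0 T) ≤ T * Real.log T ^ (n + 4) * (ε * T ^ n) := by
  have he : (0:ℝ) < Real.exp 1 := Real.exp_pos 1
  have ha0 : 0 < a := he.trans_le ha
  have hT0 : 0 < T := ha0.trans_le haT
  have hlog : ∀ x, a ≤ x → 1 ≤ Real.log x := fun x hx => by
    have := Real.log_le_log he (ha.trans hx)
    rwa [Real.log_exp] at this
  have hLT := hlog T haT
  -- the continuous integrand
  set D : ℝ → ℝ := fun x => Real.log (max x a) ^ (n + 4) with hD
  have hDc : Continuous D := by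
    refine (Continuous.log (by fun_prop) fun x => ?_).pow _
    have := le_max_right x a
    positivity
  have hD0 : ∀ x, 1 ≤ D x := fun x => one_le_pow₀ (hlog _ (le_max_right x a))
  set H : (Fin n → ℝ) → ℝ → ℝ := fun c x => D x * ‖((Wm κ a (x, c) / D x : ℝ) : ℂ) - B c‖ with hH
  have hWc := Wm_cont h4 (n := n) hκ ha0
  have hHc : Continuous (Function.uncurry H) := by
    have h1 : Continuous fun z : (Fin n → ℝ) × ℝ => D z.2 := hDc.comp continuous_snd
    have h2 : Continuous fun z : (Fin n → ℝ) × ℝ => Wm κ a (z.2, z.1) := hWc.comp (by fun_prop)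
    refine h1.mul (Continuous.norm (Continuous.sub ?_ (hB.comp continuous_fst)))
    exact Complex.continuous_ofReal.comp (h2.div h1 fun z => by have := hD0 z.2; positivity)
  have hH0 : ∀ c x, 0 ≤ H c x := fun c x => mul_nonneg (by linarith [hD0 x]) (norm_nonneg _)
  have hprod : Integrable (Function.uncurry H) ((mB n 0 T).prod (volume.restrict (Set.Ioc a T))) := by
    rw [mB_eq, Measure.prod_restrict]
    exact (hHc.continuousOn.integrableOn_compact (isCompact_Icc.prod isCompact_Icc)).mono_set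
      (Set.prod_mono_right Set.Ioc_subset_Icc_self)
  -- pointwise
  have hWI : ∀ c : Fin n → ℝ, IntervalIntegrable (fun x => Wm κ a (x, c)) volume a T := fun c =>
    (hWc.comp (by fun_prop : Continuous fun x : ℝ => (x, c))).intervalIntegrable _ _
  have hpt : ∀ c, ‖((∫ T' in a..T, WW κ T' c : ℝ) : ℂ) - ((∫ T' in a..T, Real.log T' ^ (n + 4) : ℝ) : ℂ) * B c‖ ≤
      ∫ x in Set.Ioc a T, H c x := by
    intro c
    have e1 : ∫ T' in a..T, Real.log T' ^ (n + 4) = ∫ x in a..T, D x := by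
      refine intervalIntegral.integral_congr fun x hx => ?_
      rw [Set.uIcc_of_le haT] at hx
      simp only [hD, max_eq_left hx.1]
    rw [J_eq haT, e1]
    have e2 : ((∫ x in a..T, Wm κ a (x, c) : ℝ) : ℂ) - ((∫ x in a..T, D x : ℝ) : ℂ) * B c =
        ∫ x in a..T, (((D x : ℝ) : ℂ) * (((Wm κ a (x, c) / D x : ℝ) : ℂ) - B c)) := by
      have i1 : IntervalIntegrable (fun x => ((Wm κ a (x, c) : ℝ) : ℂ)) volume a T :=
        (Complex.continuous_ofReal.comp (hWc.comp (by fun_prop : Continuous fun x : ℝ => (x, c)))).intervalIntegrable _ _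
      have i2 : IntervalIntegrable (fun x => ((D x : ℝ) : ℂ) * B c) volume a T :=
        ((Complex.continuous_ofReal.comp hDc).mul continuous_const).intervalIntegrable _ _
      rw [← intervalIntegral.integral_ofReal, ← intervalIntegral.integral_ofReal,
        ← intervalIntegral.integral_mul_const, ← intervalIntegral.integral_sub i1 i2]
      refine intervalIntegral.integral_congr fun x _ => ?_
      have hx : ((D x : ℝ) : ℂ) ≠ 0 := by
        have := hD0 x
        exact_mod_cast (by positivity : D x ≠ 0)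
      push_cast
      field_simp
    rw [e2]
    refine (intervalIntegral.norm_integral_le_integral_norm haT).trans (le_of_eq ?_)
    rw [intervalIntegral.integral_of_le haT]
    refine integral_congr_ae (Eventually.of_forall fun x => ?_)
    simp only [hH, norm_mul, Complex.norm_real, Real.norm_eq_abs]
    rw [abs_of_nonneg (by linarith [hD0 x])]
  calc _ ≤ ∫ c, (∫ x in Set.Ioc a T, H c x) ∂(mB n 0 T) := by
        refine integral_mono_of_nonneg (Eventually.of_forall fun c => norm_nonneg _) hprod.integral_prod_left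
          (Eventually.of_forall hpt)
    _ = ∫ x in Set.Ioc a T, (∫ c, H c x ∂(mB n 0 T)) := integral_integral_swap hprod
    _ ≤ ∫ x in Set.Ioc a T, Real.log T ^ (n + 4) * (ε * T ^ n) := by
        refine setIntegral_mono_on hprod.integral_prod_right (integrable_const _) measurableSet_Ioc fun x hx => ?_
        have hx1 : max x a = x := max_eq_left hx.1.le
        have e3 : D x = Real.log x ^ (n + 4) := by simp only [hD, hx1]
        have e4 : ∀ c : Fin n → ℝ, Wm κ a (x, c) = WW κ x c := fun c => by simp only [Wm, hx1]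
        have h1 := hw x hx.1.le hx.2
        have e5 : ∫ c, H c x ∂(mB n 0 T) =
            D x * ∫ c, ‖((WW κ x c / Real.log x ^ (n + 4) : ℝ) : ℂ) - B c‖ ∂(mB n 0 T) := by
          rw [← integral_const_mul]
          refine integral_congr_ae (Eventually.of_forall fun c => ?_)
          simp only [hH, e4, e3]
        rw [e5]
        have h2 : D x ≤ Real.log T ^ (n + 4) := by
          rw [e3]
          exact pow_le_pow_left₀ (by linarith [hlog x hx.1.le]) (Real.log_le_log (by linarith [hx.1]) hx.2) _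
        exact mul_le_mul h2 h1 (integral_nonneg fun c => norm_nonneg _) (by positivity)
    _ = (T - a) * (Real.log T ^ (n + 4) * (ε * T ^ n)) := by
        rw [setIntegral_const, smul_eq_mul, measureReal_def, Real.volume_Ioc, ENNReal.toReal_ofReal (by linarith)]
    _ ≤ _ := by
        rw [mul_assoc]
        refine mul_le_mul_of_nonneg_right (by linarith) (by positivity)

/-- the integral of the powers of the logarithm -/
lemma K_bd (n : ℕ) {e : ℝ} (he : 0 < e) (he1 : e ≤ 1 / 4) : ∀ᶠ T : ℝ in atTop,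
    |(∫ T' in (e * T)..T, Real.log T' ^ (n + 4)) / (T * Real.log T ^ (n + 4)) - 1| ≤ 2 * e := by
  have hlim : Tendsto (fun T : ℝ => ((Real.log T + Real.log e) / Real.log T) ^ (n + 4)) atTop (𝓝 1) := by
    have h1 : Tendsto (fun T : ℝ => (Real.log T + Real.log e) / Real.log T) atTop (𝓝 1) := by
      have h2 : Tendsto (fun T : ℝ => 1 + Real.log e / Real.log T) atTop (𝓝 (1 + 0)) :=
        tendsto_const_nhds.add (tendsto_const_nhds.div_atTop Real.tendsto_log_atTop)
      rw [add_zero] at h2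
      refine h2.congr' ?_
      filter_upwards [Real.tendsto_log_atTop.eventually_gt_atTop 0] with T hT
      field_simp
    simpa using h1.pow (n + 4)
  filter_upwards [hlim.eventually (lt_mem_nhds (by linarith : 1 - e < 1)), eventually_gt_atTop (0:ℝ),
    Real.tendsto_log_atTop.eventually_gt_atTop 0,
    Real.tendsto_log_atTop.eventually_gt_atTop (-Real.log e)] with T h1 hT0 hL hL2
  have heT : 0 < e * T := by positivity
  have hle : e * T ≤ T := by nlinarith
  have hlogeT : Real.log (e * T) = Real.log T + Real.log e := by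
    rw [Real.log_mul he.ne' hT0.ne', add_comm]
  have hi : IntervalIntegrable (fun x => Real.log x ^ (n + 4)) volume (e * T) T := by
    refine ContinuousOn.intervalIntegrable ?_
    rw [Set.uIcc_of_le hle]
    exact (Real.continuousOn_log.mono fun x hx => by
      have : 0 < x := heT.trans_le hx.1
      simp [this.ne']).pow _
  have hup : ∫ x in (e * T)..T, Real.log x ^ (n + 4) ≤ (T - e * T) * Real.log T ^ (n + 4) := by
    calc _ ≤ ∫ x in (e * T)..T, Real.log T ^ (n + 4) := by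
          refine intervalIntegral.integral_mono_on hle hi (by simp) fun x hx => ?_
          refine pow_le_pow_left₀ ?_ (Real.log_le_log (heT.trans_le hx.1) hx.2) _
          have := Real.log_le_log heT hx.1
          rw [hlogeT] at this
          linarith
      _ = _ := by rw [intervalIntegral.integral_const, smul_eq_mul]
  have hlo : (T - e * T) * (Real.log T + Real.log e) ^ (n + 4) ≤ ∫ x in (e * T)..T, Real.log x ^ (n + 4) := by
    calc _ = ∫ x in (e * T)..T, (Real.log T + Real.log e) ^ (n + 4) := by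
          rw [intervalIntegral.integral_const, smul_eq_mul]
      _ ≤ _ := by
          refine intervalIntegral.integral_mono_on hle (by simp) hi fun x hx => ?_
          refine pow_le_pow_left₀ (by linarith) ?_ _
          rw [← hlogeT]
          exact Real.log_le_log heT hx.1
  set K := ∫ x in (e * T)..T, Real.log x ^ (n + 4)
  have hDp : 0 < T * Real.log T ^ (n + 4) := by positivity
  rw [div_pow, lt_div_iff₀ (by positivity)] at h1
  rw [abs_le]
  constructor
  · rw [le_sub_iff_add_le, le_div_iff₀ hDp]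
    have h2 : (T - e * T) * ((1 - e) * Real.log T ^ (n + 4)) ≤ K :=
      (mul_le_mul_of_nonneg_left h1.le (by linarith)).trans hlo
    have h3 : (-(2 * e) + 1) * (T * Real.log T ^ (n + 4)) ≤ (T - e * T) * ((1 - e) * Real.log T ^ (n + 4)) := by
      have : (T - e * T) * ((1 - e) * Real.log T ^ (n + 4)) - (-(2 * e) + 1) * (T * Real.log T ^ (n + 4)) =
          e ^ 2 * (T * Real.log T ^ (n + 4)) := by ring
      have h4 : 0 ≤ e ^ 2 * (T * Real.log T ^ (n + 4)) := by positivity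
      linarith
    exact h3.trans h2
  · rw [sub_le_iff_le_add, div_le_iff₀ hDp]
    refine hup.trans ?_
    have : (2 * e + 1) * (T * Real.log T ^ (n + 4)) - (T - e * T) * Real.log T ^ (n + 4) =
        3 * e * (T * Real.log T ^ (n + 4)) := by ring
    have h4 : 0 ≤ 3 * e * (T * Real.log T ^ (n + 4)) := by positivity
    linarith

lemma int_add4 {α : Type*} [MeasurableSpace α] {μ : Measure α} {f g h k : α → ℝ} (hf : Integrable f μ)
    (hg : Integrable g μ) (hh : Integrable h μ) (hk : Integrable k μ) :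
    ∫ x, (f x + (g x + (h x + k x))) ∂μ = (∫ x, f x ∂μ) + ((∫ x, g x ∂μ) + ((∫ x, h x ∂μ) + ∫ x, k x ∂μ)) := by
  have a1 : Integrable (fun x => h x + k x) μ := hh.add hk
  have a2 : Integrable (fun x => g x + (h x + k x)) μ := hg.add a1
  rw [integral_add hf a2, integral_add hg a1, integral_add hh hk]

lemma int_add3 {α : Type*} [MeasurableSpace α] {μ : Measure α} {f g h : α → ℝ} (hf : Integrable f μ)
    (hg : Integrable g μ) (hh : Integrable h μ) :
    ∫ x, (f x + (g x + h x)) ∂μ = (∫ x, f x ∂μ) + ((∫ x, g x ∂μ) + ∫ x, h x ∂μ) := by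
  have a1 : Integrable (fun x => g x + h x) μ := hg.add hh
  rw [integral_add hf a1, integral_add hg hh]

/-- the main theorem -/
theorem t_MAIN (h1 : S_WIN) (h2 : S_SHP) (h3 : S_EUL) (h4 : S_CTW) : S_MAIN := by
  intro n ε hε
  obtain ⟨C, hC, h2⟩ := h2 n
  obtain ⟨Y1, hY1⟩ := h3 n 1 one_pos
  obtain ⟨CB, hCB0, hCB⟩ := BY_bd n Y1
  set B0 : ℝ := CB + 4 with hB0d
  have hB0 : 0 < B0 := by linarith
  set e : ℝ := min (1 / 4) (ε / (8 * (C + B0))) with hed
  have he : 0 < e := lt_min (by norm_num) (by positivity)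
  have he4 : e ≤ 1 / 4 := min_le_left _ _
  have he' : e * (8 * (C + B0)) ≤ ε := by
    have := min_le_right (1 / 4) (ε / (8 * (C + B0)))
    calc e * (8 * (C + B0)) ≤ ε / (8 * (C + B0)) * (8 * (C + B0)) := mul_le_mul_of_nonneg_right this (by positivity)
      _ = ε := by field_simp
  obtain ⟨Y2, hY2⟩ := h1 n (1 / e) (ε / 4) (by rw [le_div_iff₀ he]; linarith) (by positivity)
  obtain ⟨Y3, hY3⟩ := h3 n ε hε
  set Y := max Y1 (max Y2 Y3) with hYd
  have hYa : Y1 ≤ Y := le_max_left _ _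
  have hYb : Y2 ≤ Y := (le_max_left _ _).trans (le_max_right _ _)
  have hYc : Y3 ≤ Y := (le_max_right _ _).trans (le_max_right _ _)
  obtain ⟨T0, hT0⟩ := eventually_atTop.mp (hY2 Y hYb)
  filter_upwards [h2 e he he4, hY1 Y1 le_rfl, hY1 Y hYa, hY3 Y hYc, Rng_ok he (by linarith), K_bd n he he4,
    eventually_ge_atTop (T0 / e), eventually_ge_atTop (Real.exp 1 / e), eventually_ge_atTop (1:ℝ)] with
    T hS hE1 hE2 hE3 hR hK hTa hTb hT1
  have hTp : 0 < T := by linarith
  set κ := ⌈6 / 5 * Real.log T ^ 2⌉₊ with hκd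
  have heT : e * T ≤ T := by nlinarith
  have ha : Real.exp 1 ≤ e * T := by
    rw [div_le_iff₀ he] at hTb; linarith
  have hlT : 1 ≤ Real.log T := by
    have := Real.log_le_log (Real.exp_pos 1) (ha.trans heT)
    rwa [Real.log_exp] at this
  have hκ1 : 1 ≤ 2 * κ := by
    have h5 := (hR T heT le_rfl).1.1
    have h6 : (1:ℝ) ≤ κ := le_trans (by nlinarith) h5
    have : 1 ≤ κ := by exact_mod_cast h6
    omega
  set D := Real.log T ^ (n + 4) with hD
  have hDp : 0 < D := by positivity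
  set B : (Fin n → ℝ) → ℂ := fun c => ((1 / (2 * Real.pi ^ 2) : ℝ) : ℂ) * BY n Y c with hB
  have hBc : Continuous B := continuous_const.mul (BY_cont n Y)
  have hJ := J_bd h4 (n := n) hκ1 (ε := ε / 4) ha heT (by positivity) hBc (fun T' h5 h6 => by
    obtain ⟨r1, r2, r3⟩ := hR T' h5 h6
    refine hT0 T' ?_ κ r1 r2 r3 T h6 ?_
    · rw [div_le_iff₀ he] at hTa; linarith
    · rw [one_div, ← div_eq_inv_mul, le_div_iff₀ he]; linarith)
  set I : (Fin n → ℝ) → ℝ := fun c => ∫ t in (0:ℝ)..T, Xz t ^ 4 * ∏ j, ff (t + c j) with hI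
  set J : (Fin n → ℝ) → ℝ := fun c => ∫ T' in (e * T)..T, WW (2 * κ) T' c with hJd
  set K := ∫ T' in (e * T)..T, Real.log T' ^ (n + 4) with hKd
  have hIc : Continuous I := I_cont T
  have hJc : Continuous J := by
    have hWc := Wm_cont h4 (n := n) hκ1 (a := e * T) (by positivity)
    have : J = fun c => ∫ T' in (e * T)..T, Wm (2 * κ) (e * T) (T', c) := funext fun c => J_eq heT c
    rw [this]
    refine intervalIntegral.continuous_parametric_intervalIntegral_of_continuous' ?_ _ _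
    exact hWc.comp (by fun_prop : Continuous fun z : (Fin n → ℝ) × ℝ => (z.2, z.1))
  have hYY := BY_cont n Y
  have hYY1 := BY_cont n Y1
  have hSS := SS_cont (n := n) (Real.log T)
  -- the size of the main term
  have hpi : (0:ℝ) < Real.pi ^ 2 := by positivity
  have hpi9 : (9:ℝ) < Real.pi ^ 2 := by nlinarith [Real.pi_gt_three]
  have hpi10 : Real.pi ^ 2 < 10 := by nlinarith [Real.pi_gt_three, Real.pi_lt_d2]
  have hTn : 0 < T ^ n := by positivity
  have hBB : ∫ c, ‖BY n Y c‖ ∂(mB n 0 T) ≤ B0 * T ^ n := by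
    have hpt : ∀ c, ‖BY n Y c‖ ≤ CB +
        (Real.pi ^ 2 / 6 * ‖((6 / Real.pi ^ 2 : ℝ) : ℂ) * BY n Y c - ((SS (Real.log T) c : ℝ) : ℂ)‖ +
        Real.pi ^ 2 / 6 * ‖((6 / Real.pi ^ 2 : ℝ) : ℂ) * BY n Y1 c - ((SS (Real.log T) c : ℝ) : ℂ)‖) := by
      intro c
      have e1 : BY n Y c = BY n Y1 c +
          (((Real.pi ^ 2 / 6 : ℝ) : ℂ) * (((6 / Real.pi ^ 2 : ℝ) : ℂ) * BY n Y c - ((SS (Real.log T) c : ℝ) : ℂ)) -
          ((Real.pi ^ 2 / 6 : ℝ) : ℂ) * (((6 / Real.pi ^ 2 : ℝ) : ℂ) * BY n Y1 c - ((SS (Real.log T) c : ℝ) : ℂ))) := by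
        have : (Real.pi : ℂ) ≠ 0 := by exact_mod_cast Real.pi_ne_zero
        push_cast
        field_simp
        ring
      have e2 : ‖((Real.pi ^ 2 / 6 : ℝ) : ℂ)‖ = Real.pi ^ 2 / 6 := by
        rw [Complex.norm_real, Real.norm_eq_abs, abs_of_nonneg (by positivity)]
      calc ‖BY n Y c‖ ≤ ‖BY n Y1 c‖ + ‖((Real.pi ^ 2 / 6 : ℝ) : ℂ) * (((6 / Real.pi ^ 2 : ℝ) : ℂ) * BY n Y c - ((SS (Real.log T) c : ℝ) : ℂ)) -
          ((Real.pi ^ 2 / 6 : ℝ) : ℂ) * (((6 / Real.pi ^ 2 : ℝ) : ℂ) * BY n Y1 c - ((SS (Real.log T) c : ℝ) : ℂ))‖ := by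
            conv_lhs => rw [e1]
            exact norm_add_le _ _
        _ ≤ CB + (‖((Real.pi ^ 2 / 6 : ℝ) : ℂ) * (((6 / Real.pi ^ 2 : ℝ) : ℂ) * BY n Y c - ((SS (Real.log T) c : ℝ) : ℂ))‖ +
          ‖((Real.pi ^ 2 / 6 : ℝ) : ℂ) * (((6 / Real.pi ^ 2 : ℝ) : ℂ) * BY n Y1 c - ((SS (Real.log T) c : ℝ) : ℂ))‖) :=
            add_le_add (hCB c) (norm_sub_le _ _)
        _ = _ := by rw [norm_mul, norm_mul, e2]
    have c1 : Continuous fun c : Fin n → ℝ => ‖((6 / Real.pi ^ 2 : ℝ) : ℂ) * BY n Y c - ((SS (Real.log T) c : ℝ) : ℂ)‖ := by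
      fun_prop
    have c2 : Continuous fun c : Fin n → ℝ => ‖((6 / Real.pi ^ 2 : ℝ) : ℂ) * BY n Y1 c - ((SS (Real.log T) c : ℝ) : ℂ)‖ := by
      fun_prop
    have j1 := (mB_int c1 0 T).const_mul (Real.pi ^ 2 / 6)
    have j2 := (mB_int c2 0 T).const_mul (Real.pi ^ 2 / 6)
    calc _ ≤ ∫ c, (CB +
        (Real.pi ^ 2 / 6 * ‖((6 / Real.pi ^ 2 : ℝ) : ℂ) * BY n Y c - ((SS (Real.log T) c : ℝ) : ℂ)‖ +
        Real.pi ^ 2 / 6 * ‖((6 / Real.pi ^ 2 : ℝ) : ℂ) * BY n Y1 c - ((SS (Real.log T) c : ℝ) : ℂ)‖)) ∂(mB n 0 T) :=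
          integral_mono (mB_int hYY.norm 0 T) ((integrable_const _).add (j1.add j2)) hpt
      _ = CB * T ^ n + (Real.pi ^ 2 / 6 * (∫ c, ‖((6 / Real.pi ^ 2 : ℝ) : ℂ) * BY n Y c -
            ((SS (Real.log T) c : ℝ) : ℂ)‖ ∂(mB n 0 T)) +
          Real.pi ^ 2 / 6 * ∫ c, ‖((6 / Real.pi ^ 2 : ℝ) : ℂ) * BY n Y1 c -
            ((SS (Real.log T) c : ℝ) : ℂ)‖ ∂(mB n 0 T)) := by
          rw [int_add3 (integrable_const _) j1 j2, integral_const_mul, integral_const_mul, mB_const hTp.le]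
      _ ≤ CB * T ^ n + (Real.pi ^ 2 / 6 * (1 * T ^ n) + Real.pi ^ 2 / 6 * (1 * T ^ n)) := by gcongr
      _ ≤ B0 * T ^ n := by
          have : Real.pi ^ 2 / 6 * (1 * T ^ n) ≤ 2 * T ^ n := by nlinarith
          rw [hB0d, add_mul]; linarith
  -- the final estimate
  have hTD : 0 < T * D := by positivity
  have hpt : ∀ c, |I c / (T * D) - 1 / 12 * SS (Real.log T) c| ≤
      (T * D)⁻¹ * |I c - J c| + ((T * D)⁻¹ * ‖((J c : ℝ) : ℂ) - ((K : ℝ) : ℂ) * B c‖ +
      (e * ‖BY n Y c‖ + 1 / 12 * ‖((6 / Real.pi ^ 2 : ℝ) : ℂ) * BY n Y c - ((SS (Real.log T) c : ℝ) : ℂ)‖)) := by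
    intro c
    have e0 : |I c / (T * D) - 1 / 12 * SS (Real.log T) c| =
        ‖((I c / (T * D) - 1 / 12 * SS (Real.log T) c : ℝ) : ℂ)‖ := by
      rw [Complex.norm_real, Real.norm_eq_abs]
    have hTDc : ((T * D : ℝ) : ℂ) ≠ 0 := by exact_mod_cast hTD.ne'
    have e1 : ((I c / (T * D) - 1 / 12 * SS (Real.log T) c : ℝ) : ℂ) =
        (((T * D)⁻¹ : ℝ) : ℂ) * ((I c - J c : ℝ) : ℂ) +
        ((((T * D)⁻¹ : ℝ) : ℂ) * (((J c : ℝ) : ℂ) - ((K : ℝ) : ℂ) * B c) +
        (((K / (T * D) - 1 : ℝ) : ℂ) * B c +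
          ((1 / 12 : ℝ) : ℂ) * (((6 / Real.pi ^ 2 : ℝ) : ℂ) * BY n Y c - ((SS (Real.log T) c : ℝ) : ℂ)))) := by
      have hp : (Real.pi : ℂ) ≠ 0 := by exact_mod_cast Real.pi_ne_zero
      have hT' : (T : ℂ) ≠ 0 := by exact_mod_cast hTp.ne'
      have hD' : (D : ℂ) ≠ 0 := by exact_mod_cast hDp.ne'
      simp only [hB]
      push_cast
      field_simp
      ring
    have e2 : ‖(((T * D)⁻¹ : ℝ) : ℂ)‖ = (T * D)⁻¹ := by
      rw [Complex.norm_real, Real.norm_eq_abs, abs_of_pos (by positivity)]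
    have e3 : ‖((I c - J c : ℝ) : ℂ)‖ = |I c - J c| := by rw [Complex.norm_real, Real.norm_eq_abs]
    have e4 : ‖((K / (T * D) - 1 : ℝ) : ℂ) * B c‖ ≤ e * ‖BY n Y c‖ := by
      simp only [hB]
      rw [norm_mul, norm_mul, Complex.norm_real, Complex.norm_real, Real.norm_eq_abs, Real.norm_eq_abs,
        abs_of_pos (by positivity : 0 < 1 / (2 * Real.pi ^ 2))]
      have h5 : 1 / (2 * Real.pi ^ 2) ≤ 1 / 2 := by
        rw [div_le_div_iff₀ (by positivity) (by norm_num)]; nlinarith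
      calc _ ≤ (2 * e) * (1 / 2 * ‖BY n Y c‖) := by
            refine mul_le_mul hK (mul_le_mul_of_nonneg_right h5 (norm_nonneg _)) (by positivity) (by positivity)
        _ = _ := by ring
    have e5 : ‖((1 / 12 : ℝ) : ℂ) * (((6 / Real.pi ^ 2 : ℝ) : ℂ) * BY n Y c - ((SS (Real.log T) c : ℝ) : ℂ))‖ =
        1 / 12 * ‖((6 / Real.pi ^ 2 : ℝ) : ℂ) * BY n Y c - ((SS (Real.log T) c : ℝ) : ℂ)‖ := by
      rw [norm_mul, Complex.norm_real, Real.norm_eq_abs, abs_of_pos (by norm_num)]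
    rw [e0, e1]
    refine (norm_add_le _ _).trans (add_le_add ?_ ((norm_add_le _ _).trans (add_le_add ?_
      ((norm_add_le _ _).trans (add_le_add e4 e5.le)))))
    · rw [norm_mul, e2, e3]
    · rw [norm_mul, e2]
  have c1 : Continuous fun c => |I c - J c| := (hIc.sub hJc).abs
  have c2 : Continuous fun c => ‖((J c : ℝ) : ℂ) - ((K : ℝ) : ℂ) * B c‖ := by fun_prop
  have c3 : Continuous fun c => ‖BY n Y c‖ := hYY.norm
  have c4 : Continuous fun c : Fin n → ℝ => ‖((6 / Real.pi ^ 2 : ℝ) : ℂ) * BY n Y c - ((SS (Real.log T) c : ℝ) : ℂ)‖ := by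
    fun_prop
  have c5 : Continuous fun c => |I c / (T * D) - 1 / 12 * SS (Real.log T) c| := by fun_prop
  have i1 := (mB_int c1 0 T).const_mul (T * D)⁻¹
  have i2 := (mB_int c2 0 T).const_mul (T * D)⁻¹
  have i3 := (mB_int c3 0 T).const_mul e
  have i4 := (mB_int c4 0 T).const_mul (1 / 12)
  have hSh : ∫ c, |I c - J c| ∂(mB n 0 T) ≤ C * e * (T ^ (n + 1) * D) := by
    have r2 := (hR T heT le_rfl).2.1
    exact hS (2 * κ) r2
  calc _ ≤ ∫ c, ((T * D)⁻¹ * |I c - J c| + ((T * D)⁻¹ * ‖((J c : ℝ) : ℂ) - ((K : ℝ) : ℂ) * B c‖ +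
      (e * ‖BY n Y c‖ + 1 / 12 * ‖((6 / Real.pi ^ 2 : ℝ) : ℂ) * BY n Y c - ((SS (Real.log T) c : ℝ) : ℂ)‖)))
        ∂(mB n 0 T) := integral_mono (mB_int c5 0 T) (i1.add (i2.add (i3.add i4))) hpt
    _ = (T * D)⁻¹ * (∫ c, |I c - J c| ∂(mB n 0 T)) +
        ((T * D)⁻¹ * (∫ c, ‖((J c : ℝ) : ℂ) - ((K : ℝ) : ℂ) * B c‖ ∂(mB n 0 T)) +
        (e * (∫ c, ‖BY n Y c‖ ∂(mB n 0 T)) +
        1 / 12 * ∫ c, ‖((6 / Real.pi ^ 2 : ℝ) : ℂ) * BY n Y c - ((SS (Real.log T) c : ℝ) : ℂ)‖ ∂(mB n 0 T))) := by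
        rw [int_add4 i1 i2 i3 i4, integral_const_mul, integral_const_mul, integral_const_mul, integral_const_mul]
    _ ≤ (T * D)⁻¹ * (C * e * (T ^ (n + 1) * D)) + ((T * D)⁻¹ * (T * D * (ε / 4 * T ^ n)) +
        (e * (B0 * T ^ n) + 1 / 12 * (ε * T ^ n))) := by gcongr
    _ = (C * e + ε / 4 + e * B0 + ε / 12) * T ^ n := by
        field_simp
        ring
    _ ≤ ε * T ^ n := by
        refine mul_le_mul_of_nonneg_right ?_ hTn.le
        nlinarith

end

end Pool.Agent.Y969.SM
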