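import Pool.Agent.Y969.SM.FinC
import Pool.Agent.TH806.N4.Abs
import Pool.Agent.Y739.SX.FA
import Pool.Agent.Y809.SX.UB0
import Pool.Agent.Y604.SX.AS

set_option autoImplicit false

/-! Project SX: the main theorem. -/

namespace Pool.Agent.Y969.SM

/-- the main theorem of the project -/
theorem main : S_MAIN :=
  main_of Pool.Agent.Y739.SX.t_FA
    (fun k hk => Pool.Agent.Y809.SX.t_UB0 Pool.Agent.Y726.SX.t_TWC Pool.Agent.TH384.N4_FM.t_FM
      Pool.Agent.Y369.SX.t_ARS k hk)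
    (fun h => Pool.Agent.Y604.SX.t_AS Pool.Agent.Y726.SX.t_TWC Pool.Agent.TH384.N4_FM.t_FM
      Pool.Agent.TH806.N4.a_ING Pool.Agent.Y901.SX.t_A1 Pool.Agent.Y54.SX.t_A2 h)

end Pool.Agent.Y969.SM
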