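import Pool.Agent.Y969.SM.Win1

set_option autoImplicit false

/-! Project SX: the windows. -/

namespace Pool.Agent.Y969.SM

open Finset Filter Topology MeasureTheory Complex
open Pool.Agent.Y969.GP (ff ht lam FR PX cr co V mB S_V)
open Pool.Agent.H306R2.SM (om cl Yf)
open Pool.Agent.H262R4.TM (Rng Ck)

noncomputable section

lemma zero_ne_last (n : ℕ) : (0 : Fin (n + 2)) ≠ Fin.last (n + 1) := by
  intro h
  have := congrArg Fin.val h
  simp at this

lemma kg_zero (n : ℕ) (T c : ℝ) :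
    kg T (0 : Fin (n + 2)) c = Real.log ((T + c) / (2 * Real.pi)) + 2 * Real.eulerMascheroniConstant := by
  unfold kg
  rw [if_neg (zero_ne_last n), if_pos (by simp)]

/-- the coefficients -/
lemma kg_bd (n : ℕ) {A : ℝ} (hA : 1 ≤ A) : ∃ C : ℝ, 0 < C ∧ ∀ᶠ T : ℝ in atTop, ∀ c : Fin n → ℝ,
    (∀ j, 0 ≤ c j ∧ c j ≤ A * T) → ∀ a : Fin n → Fin (n + 2),
    |(∏ j, kg T (a j) (c j)) - (if a = (fun _ => 0) then Real.log T ^ n else 0)| ≤
      C * (Real.log T ^ n / Real.log T) := by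
  set D : ℝ := Real.log (1 + A) + |Real.log (2 * Real.pi)| + 2 * |Real.eulerMascheroniConstant| with hD
  have hlA : 0 ≤ Real.log (1 + A) := Real.log_nonneg (by linarith)
  have hD0 : 0 ≤ D := by positivity
  refine ⟨2 * n * D + 2 ^ n, by positivity, ?_⟩
  filter_upwards [eventually_gt_atTop (0:ℝ), Real.tendsto_log_atTop.eventually_ge_atTop 1,
    Real.tendsto_log_atTop.eventually_ge_atTop D, Real.tendsto_log_atTop.eventually_ge_atTop (n * D)] with T hT hL1 hLD hLnD
  intro c hc a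
  set L := Real.log T with hLd
  have hL0 : 0 < L := by linarith
  have h0 : ∀ j, |kg T (0 : Fin (n + 2)) (c j) - L| ≤ D := by
    intro j
    rw [kg_zero]
    have hc1 := (hc j).1
    have hc2 := (hc j).2
    have hTc : 0 < T + c j := by linarith
    have l1 : L ≤ Real.log (T + c j) := Real.log_le_log hT (by linarith)
    have l2 : Real.log (T + c j) ≤ L + Real.log (1 + A) := by
      rw [hLd, ← Real.log_mul hT.ne' (by linarith)]
      exact Real.log_le_log hTc (by nlinarith)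
    rw [Real.log_div hTc.ne' (by positivity)]
    have p1 := le_abs_self (Real.log (2 * Real.pi))
    have p2 := neg_abs_le (Real.log (2 * Real.pi))
    have p3 := le_abs_self Real.eulerMascheroniConstant
    have p4 := neg_abs_le Real.eulerMascheroniConstant
    rw [abs_le]
    constructor <;> linarith
  by_cases ha : a = fun _ => 0
  · rw [if_pos ha, ha]
    have e1 : ∏ j, kg T (0 : Fin (n + 2)) (c j) = L ^ n * ∏ j : Fin n, (1 + (kg T (0 : Fin (n + 2)) (c j) - L) / L) := by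
      calc _ = ∏ j : Fin n, (L * (1 + (kg T (0 : Fin (n + 2)) (c j) - L) / L)) := by
            refine Finset.prod_congr rfl fun j _ => ?_
            field_simp
            ring
        _ = _ := by rw [Finset.prod_mul_distrib, Finset.prod_const, Finset.card_univ, Fintype.card_fin]
    have e2 : ∏ j, kg T (0 : Fin (n + 2)) (c j) - L ^ n =
        L ^ n * (∏ j : Fin n, (1 + (kg T (0 : Fin (n + 2)) (c j) - L) / L) - 1) := by rw [e1]; ring
    rw [e2, abs_mul, abs_of_pos (by positivity)]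
    have h1 := Finset.norm_prod_one_add_sub_one_le (Finset.univ : Finset (Fin n))
      (fun j => (kg T (0 : Fin (n + 2)) (c j) - L) / L)
    have h2 : ∑ j : Fin n, ‖(kg T (0 : Fin (n + 2)) (c j) - L) / L‖ ≤ n * D / L := by
      calc _ ≤ ∑ _j : Fin n, D / L := Finset.sum_le_sum fun j _ => by
            rw [Real.norm_eq_abs, abs_div, abs_of_pos hL0]
            exact div_le_div_of_nonneg_right (h0 j) hL0.le
        _ = _ := by rw [Finset.sum_const, Finset.card_univ, Fintype.card_fin, nsmul_eq_mul]; ring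
    have h3 : 0 ≤ n * D / L := by positivity
    have h4 : n * D / L ≤ 1 := by rw [div_le_one hL0]; exact hLnD
    have h5 : Real.exp (n * D / L) - 1 ≤ 2 * (n * D / L) := by
      have := Real.abs_exp_sub_one_le (x := n * D / L) (by rw [abs_of_nonneg h3]; exact h4)
      rw [abs_of_nonneg h3] at this
      exact (le_abs_self _).trans this
    have h6 : |∏ j : Fin n, (1 + (kg T (0 : Fin (n + 2)) (c j) - L) / L) - 1| ≤ 2 * (n * D / L) := by
      refine h1.trans (le_trans ?_ h5)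
      have := Real.exp_le_exp.mpr h2
      linarith
    calc _ ≤ L ^ n * (2 * (n * D / L)) := mul_le_mul_of_nonneg_left h6 (by positivity)
      _ = 2 * n * D * (L ^ n / L) := by ring
      _ ≤ _ := by
          refine mul_le_mul_of_nonneg_right ?_ (by positivity)
          have : (0:ℝ) < 2 ^ n := by positivity
          linarith
  · rw [if_neg ha, sub_zero, Finset.abs_prod]
    obtain ⟨j0, hj0⟩ : ∃ j0, a j0 ≠ 0 := by
      by_contra hcon
      push Not at hcon
      exact ha (funext hcon)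
    have hk0 : ∀ j, |kg T (a j) (c j)| ≤ 2 * L ∧ (a j ≠ 0 → |kg T (a j) (c j)| ≤ 1) := by
      intro j
      by_cases hj : a j = 0
      · refine ⟨?_, fun h => absurd hj h⟩
        rw [hj]
        have := abs_le.mp (h0 j)
        rw [abs_le]
        constructor <;> linarith [this.1, this.2]
      · have h1 : |kg T (a j) (c j)| ≤ 1 := by
          unfold kg
          split_ifs with q1 q2
          · simp
          · exact absurd (Fin.ext (by simpa using q2)) hj
          · have hTc : 0 < T + c j := by linarith [(hc j).1]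
            rw [abs_div, abs_mul, abs_pow, abs_neg, abs_one, one_pow, one_mul]
            have h2 : |(T / (T + c j)) ^ ((a j : Fin (n + 2)) : ℕ)| ≤ 1 := by
              rw [abs_of_nonneg (by positivity)]
              refine pow_le_one₀ (by positivity) ?_
              rw [div_le_one hTc]; linarith [(hc j).1]
            have h3 : (1:ℝ) ≤ |(((a j : Fin (n + 2)) : ℕ) : ℝ)| := by
              rw [abs_of_nonneg (by positivity)]
              exact_mod_cast Nat.one_le_iff_ne_zero.mpr q2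
            rw [div_le_one (by linarith)]
            linarith
        exact ⟨by linarith, fun _ => h1⟩
    calc ∏ j, |kg T (a j) (c j)| ≤ ∏ j : Fin n, (2 * L * (if j = j0 then (2 * L)⁻¹ else 1)) := by
          refine Finset.prod_le_prod (fun j _ => abs_nonneg _) fun j _ => ?_
          split_ifs with hj
          · rw [mul_inv_cancel₀ (by positivity), hj]
            exact (hk0 j0).2 hj0
          · rw [mul_one]; exact (hk0 j).1
      _ = (2 * L) ^ n * (2 * L)⁻¹ := by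
          rw [Finset.prod_mul_distrib, Finset.prod_const, Finset.card_univ, Fintype.card_fin,
            Finset.prod_ite_eq' Finset.univ j0 (fun _ => (2 * L)⁻¹), if_pos (Finset.mem_univ _)]
      _ = 2 ^ n * (L ^ n / L) * (1 / 2) := by
          rw [mul_pow, mul_inv]
          field_simp
      _ ≤ 2 ^ n * (L ^ n / L) * 1 := by gcongr; norm_num
      _ ≤ _ := by
          rw [mul_one]
          refine mul_le_mul_of_nonneg_right ?_ (by positivity)
          have : 0 ≤ 2 * n * D := by positivity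
          linarith

/-- six error terms -/
lemma int_add6 {α : Type*} [MeasurableSpace α] {μ : Measure α} {f1 f2 f3 f4 f5 f6 : α → ℝ} (h1 : Integrable f1 μ)
    (h2 : Integrable f2 μ) (h3 : Integrable f3 μ) (h4 : Integrable f4 μ) (h5 : Integrable f5 μ) (h6 : Integrable f6 μ) :
    Integrable (fun x => f1 x + (f2 x + (f3 x + (f4 x + (f5 x + f6 x))))) μ ∧
    ∫ x, (f1 x + (f2 x + (f3 x + (f4 x + (f5 x + f6 x))))) ∂μ = (∫ x, f1 x ∂μ) + ((∫ x, f2 x ∂μ) + ((∫ x, f3 x ∂μ) +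
      ((∫ x, f4 x ∂μ) + ((∫ x, f5 x ∂μ) + ∫ x, f6 x ∂μ)))) := by
  have a1 : Integrable (fun x => f5 x + f6 x) μ := h5.add h6
  have a2 : Integrable (fun x => f4 x + (f5 x + f6 x)) μ := h4.add a1
  have a3 : Integrable (fun x => f3 x + (f4 x + (f5 x + f6 x))) μ := h3.add a2
  have a4 : Integrable (fun x => f2 x + (f3 x + (f4 x + (f5 x + f6 x)))) μ := h2.add a3
  refine ⟨h1.add a4, ?_⟩
  rw [integral_add h1 a4, integral_add h2 a3, integral_add h3 a2, integral_add h4 a1, integral_add h5 h6]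

attribute [local irreducible] WW BY TA PX PL F0 KK kg

/-- the asymptotics in the windows -/
theorem t_WIN (k : ℕ) (hFB : S_FB k) (h1 : S_W1 k) (h2 : S_W2 k) (h3 : S_MIN k) (h4 : S_TAY k) (h5 : S_TL2 k)
    (h6 : S_T0 k) (h7 : S_CTW) (h8 : S_V) : S_WIN := by
  intro n A ε hA hε
  obtain ⟨σa, CT, hσa, hCT, hTAY⟩ := h4 n A hA
  obtain ⟨σb, CL, hσb, hCL, hTL⟩ := h5 n A hA
  obtain ⟨σc, hσc, hT0⟩ := h6 n A hA
  set σ : ℝ := min (min σa σb) (min σc (1 / 2)) with hσd
  have hσ : 0 < σ := lt_min (lt_min hσa hσb) (lt_min hσc (by norm_num))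
  have hσ1 : σ ≤ σa := (min_le_left _ _).trans (min_le_left _ _)
  have hσ2 : σ ≤ σb := (min_le_left _ _).trans (min_le_right _ _)
  have hσ3 : σ ≤ σc := (min_le_right _ _).trans (min_le_left _ _)
  have hσ4 : σ ≤ 1 / 2 := (min_le_right _ _).trans (min_le_right _ _)
  obtain ⟨ε1, δ, hε1, hδ, hMIN⟩ := h3 n (σ / 2) A (by positivity) hA
  set e : ℝ := min ε1 1 / 2 with hed
  have he : 0 < e := by have : 0 < min ε1 1 := lt_min hε1 one_pos; positivity
  have he1 : 2 * e ≤ ε1 := by rw [hed]; have := min_le_left ε1 1; linarith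
  have he2 : 2 * e ≤ 1 := by rw [hed]; have := min_le_right ε1 1; linarith
  obtain ⟨Y0, hY0⟩ := hT0 σ hσ hσ3 ((ε / 4) ^ 2) (by positivity)
  obtain ⟨C1, hC1, hW1⟩ := h1 n A hA
  obtain ⟨C2, hC2, hkg⟩ := kg_bd n hA
  refine ⟨Y0, fun Y hY => ?_⟩
  set CC : ℝ := C1 + 2 + CT + C2 * ((n + 2 : ℕ) : ℝ) ^ n * √CL with hCC
  have hCC0 : 0 < CC := by positivity
  filter_upwards [hFB, hW1, h2 n A e hA he, hMIN, hTAY σ hσ hσ1 e he, hTL σ hσ hσ2, hY0 Y hY, hkg,
    eventually_ge_atTop (1:ℝ), Real.tendsto_log_atTop.eventually_ge_atTop 1,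
    Real.tendsto_log_atTop.eventually_ge_atTop (4 * CC / ε),
    (tendsto_rpow_atTop he).eventually_ge_atTop 2, (tendsto_rpow_atTop (by positivity : 0 < σ / 2)).eventually_ge_atTop 2]
    with T hFB hW1 hW2 hMIN hTAY hTL hT0 hkg hT1 hL1 hLC hTe hTσ
  intro κ hκ hκ2 hκ3 U hTU hUA
  obtain ⟨hFc, _, hFb⟩ := hFB
  set L := Real.log T with hLd
  have hL0 : 0 < L := by linarith
  have hTp : 0 < T := by linarith
  have hUp : 0 < U := by linarith
  set K : ℕ := 2 * κ with hK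
  have hκ1 : 1 ≤ κ := by
    have h9 := hκ.1
    have h10 : (1:ℝ) ≤ κ := le_trans (by nlinarith) h9
    exact_mod_cast h10
  have hK1 : 1 ≤ K := by omega
  have hK3 : (K : ℝ) ≤ 3 * L ^ 2 := by rw [hK]; push_cast; exact hκ3
  -- the lengths
  set X : ℕ := ⌈T ^ (1 + e)⌉₊ with hX
  set Z : ℕ := ⌊T ^ σ⌋₊ with hZ
  have hX1 : T ^ (1 + e) ≤ (X : ℝ) := Nat.le_ceil _
  have hTe1 : 1 ≤ T ^ (1 + e) := Real.one_le_rpow hT1 (by positivity)
  have hX2 : (X : ℝ) ≤ T ^ (1 + 2 * e) := by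
    have h9 := (Nat.ceil_lt_add_one (by positivity : 0 ≤ T ^ (1 + e))).le
    have h10 : T ^ (1 + 2 * e) = T ^ (1 + e) * T ^ e := by rw [← Real.rpow_add hTp]; ring_nf
    rw [h10]
    calc (X : ℝ) ≤ T ^ (1 + e) + 1 := h9
      _ ≤ T ^ (1 + e) * 2 := by linarith
      _ ≤ _ := by gcongr
  have hX3 : (X : ℝ) ≤ T ^ (1 + ε1) := hX2.trans (Real.rpow_le_rpow_of_exponent_le hT1 (by linarith))
  have hX4 : (X : ℝ) ≤ T ^ (2 : ℕ) := by
    refine hX2.trans ?_
    rw [← Real.rpow_natCast]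
    exact Real.rpow_le_rpow_of_exponent_le hT1 (by push_cast; linarith)
  have hX5 : 1 ≤ X := by
    have : (1:ℝ) ≤ X := hTe1.trans hX1
    exact_mod_cast this
  have hZ1 : T ^ (σ / 2) ≤ (Z : ℝ) := by
    have h9 : T ^ σ = T ^ (σ / 2) * T ^ (σ / 2) := by rw [← Real.rpow_add hTp]; ring_nf
    have h10 := (Nat.lt_floor_add_one (T ^ σ)).le
    have h11 : T ^ (σ / 2) * 2 ≤ T ^ σ := by rw [h9]; gcongr
    linarith
  have hZ2 : Z ≤ X := by
    have h9 : (Z : ℝ) ≤ T ^ σ := Nat.floor_le (by positivity)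
    have h10 : (Z : ℝ) ≤ X := h9.trans ((Real.rpow_le_rpow_of_exponent_le hT1 (by linarith)).trans hX1)
    exact_mod_cast h10
  -- the functions
  set F1 : (Fin n → ℝ) → ℝ := fun c => WW K T c with hF1
  set F2 : (Fin n → ℝ) → ℝ := fun c => ∫ t in Set.Ioi (0:ℝ), om K (K / T) t * (F0 k T t * ∏ j, ff (t + c j)) with hF2
  set F3 : (Fin n → ℝ) → ℂ := fun c => ∫ t in (T / 8)..(8 * T), ((om K (K / T) t * F0 k T t : ℝ) : ℂ) *
    ∏ j, PX X (t + c j) with hF3
  set F4 : (Fin n → ℝ) → ℂ := fun c => ∫ t in (T / 8)..(8 * T), ((om K (K / T) t * F0 k T t : ℝ) : ℂ) *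
    ∏ j, PL X Z (t + c j) with hF4
  set F5 : (Fin n → ℝ) → ℂ := fun c => ∑ a : Fin n → Fin (n + 2), ((∏ j, kg T (a j) (c j) : ℝ) : ℂ) * TA k Z a K T c
    with hF5
  set F6 : (Fin n → ℝ) → ℂ := fun c => TA k Z (fun _ : Fin n => 0) K T c with hF6
  set F7 : (Fin n → ℝ) → ℂ := fun c => ((L ^ 4 / (2 * Real.pi ^ 2) : ℝ) : ℂ) * BY n Y c with hF7
  -- continuity
  have hab : T / 8 ≤ 8 * T := by linarith
  have c1 : ContinuousOn F1 (bx n U) := by
    have := h7 n K hK1
    exact this.comp (f := fun c : Fin n → ℝ => (T, c)) (by fun_prop) fun c _ => ⟨hTp, trivial⟩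
  have c2 : ContinuousOn F2 (bx n U) := V1_cont hK1 hTp hUp.le hFc hFb
  have gX := V2_cont (n := n) (κ := K) (U := U) (k := k) hTp hFc (Pool.Agent.Y86.GP.PX_cont h8 X)
  have gL := V2_cont (n := n) (κ := K) (U := U) (k := k) hTp hFc (PL_cont h8 X Z)
  have c3 : ContinuousOn F3 (bx n U) := par_cont2 hab gX
  have c4 : ContinuousOn F4 (bx n U) := par_cont2 hab gL
  have cTA : ∀ a : Fin n → Fin (n + 2), ContinuousOn (fun c => TA k Z a K T c) (bx n U) := fun a =>
    TA_cont hK1 hT1 a hFc hFb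
  have hF5' : ContinuousOn F5 (bx n U) := by
    refine continuousOn_finsetSum _ fun a _ => ContinuousOn.mul ?_ (cTA a)
    refine Complex.continuous_ofReal.comp_continuousOn (continuousOn_finsetProd _ fun j _ => ?_)
    have hkc : ContinuousOn (kg T (a j)) (Set.Ici 0) := by
      unfold kg
      split_ifs
      · exact continuousOn_const
      · refine ContinuousOn.add (ContinuousOn.log (by fun_prop) fun x hx => ?_) continuousOn_const
        have hx0 : (0:ℝ) ≤ x := hx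
        positivity
      · refine ContinuousOn.div_const (continuousOn_const.mul (ContinuousOn.pow ?_ _)) _
        refine continuousOn_const.div (by fun_prop) fun x hx => ?_
        have hx0 : (0:ℝ) ≤ x := hx
        positivity
    exact hkc.comp (f := fun c : Fin n → ℝ => c j) (by fun_prop) fun c hc => (bx_nn hc j).1
  have c6 : ContinuousOn F6 (bx n U) := cTA _
  have c7 : ContinuousOn F7 (bx n U) := (continuous_const.mul (BY_cont n Y)).continuousOn
  -- the six bounds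
  have hUn : 0 < U ^ n := by positivity
  have hpw : T ^ ((n : ℝ) - 1 / 4) ≤ U ^ n := by
    calc T ^ ((n : ℝ) - 1 / 4) ≤ T ^ (n : ℝ) := Real.rpow_le_rpow_of_exponent_le hT1 (by linarith)
      _ = T ^ n := Real.rpow_natCast _ _
      _ ≤ U ^ n := pow_le_pow_left₀ hTp.le hTU n
  have hpw2 : T ^ ((n : ℝ) - δ) ≤ U ^ n := by
    calc T ^ ((n : ℝ) - δ) ≤ T ^ (n : ℝ) := Real.rpow_le_rpow_of_exponent_le hT1 (by linarith)
      _ = T ^ n := Real.rpow_natCast _ _
      _ ≤ U ^ n := pow_le_pow_left₀ hTp.le hTU n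
  have b1 : ∫ c, |F1 c - F2 c| ∂(mB n 0 U) ≤ C1 * (U ^ n * L ^ (n + 3)) := by
    have := hW1 K hκ2 U hTU hUA
    refine le_trans (le_of_eq ?_) this
    refine integral_congr_ae (Eventually.of_forall fun c => ?_)
    simp only [hF1, hF2]
    unfold WW
    rfl
  have b2 : ∫ c, ‖((F2 c : ℝ) : ℂ) - F3 c‖ ∂(mB n 0 U) ≤ U ^ n :=
    (hW2 K hκ2 U X hTU hUA hX1 hX4).trans hpw
  have b3 : ∫ c, ‖F3 c - F4 c‖ ∂(mB n 0 U) ≤ 1 * U ^ n := by
    refine mBc_cs hUp.le (c3.sub c4) one_pos ?_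
    rw [one_pow, one_mul]
    refine le_trans (le_of_eq ?_) ((hMIN K hκ2 U X Z hTU hUA hX5 hX3 hZ1 hZ2).trans hpw2)
    rw [mB_eq]
    refine setIntegral_congr_fun measurableSet_Icc fun c hc => ?_
    have hsl : ∀ {G : (Fin n → ℝ) → ℝ → ℂ}, ContinuousOn (Function.uncurry G) (bx n U ×ˢ Set.Icc (T / 8) (8 * T)) →
        IntervalIntegrable (G c) volume (T / 8) (8 * T) := by
      intro G hG
      refine ContinuousOn.intervalIntegrable ?_
      rw [Set.uIcc_of_le hab]
      exact hG.comp (f := fun t => (c, t)) (by fun_prop) fun t ht => ⟨hc, ht⟩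
    have i1 := hsl gX
    have i2 := hsl gL
    simp only [Pi.sub_apply, hF3, hF4]
    rw [← intervalIntegral.integral_sub i1 i2]
    refine congrArg (fun z => ‖z‖ ^ 2) (intervalIntegral.integral_congr fun t _ => ?_)
    ring
  have b4 : ∫ c, ‖F4 c - F5 c‖ ∂(mB n 0 U) ≤ CT * (U ^ n * L ^ (n + 3)) := by
    have := hTAY κ hκ hκ2 U X Z hTU hUA hX1 hZ
    refine le_trans (le_of_eq ?_) this
    refine integral_congr_ae (Eventually.of_forall fun c => ?_)
    simp only [hF4, hF5]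
    unfold TA
    rfl
  have bTA : ∀ a : Fin n → Fin (n + 2), ∫ c, ‖TA k Z a K T c‖ ∂(mB n 0 U) ≤ √CL * L ^ 4 * U ^ n := by
    intro a
    refine mBc_cs hUp.le (cTA a) (by positivity) ?_
    refine (hTL K hκ2 hK3 U Z hTU hUA hZ a).trans (le_of_eq ?_)
    rw [mul_pow, Real.sq_sqrt hCL.le]
    ring
  have b5 : ∫ c, ‖F5 c - ((L ^ n : ℝ) : ℂ) * F6 c‖ ∂(mB n 0 U) ≤
      C2 * (L ^ n / L) * (((n + 2 : ℕ) : ℝ) ^ n * (√CL * L ^ 4 * U ^ n)) := by
    have hpt : ∀ c ∈ bx n U, ‖F5 c - ((L ^ n : ℝ) : ℂ) * F6 c‖ ≤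
        C2 * (L ^ n / L) * ∑ a : Fin n → Fin (n + 2), ‖TA k Z a K T c‖ := by
      intro c hc
      have e1 : F5 c - ((L ^ n : ℝ) : ℂ) * F6 c = ∑ a : Fin n → Fin (n + 2),
          (((∏ j, kg T (a j) (c j)) - (if a = (fun _ => 0) then L ^ n else 0) : ℝ) : ℂ) * TA k Z a K T c := by
        simp only [hF5, hF6]
        have e2 : ((L ^ n : ℝ) : ℂ) * TA k Z (fun _ : Fin n => 0) K T c = ∑ a : Fin n → Fin (n + 2),
            ((if a = (fun _ => 0) then L ^ n else 0 : ℝ) : ℂ) * TA k Z a K T c := by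
          rw [Finset.sum_eq_single (fun _ : Fin n => (0 : Fin (n + 2)))]
          · rw [if_pos rfl]
          · intro a _ ha
            rw [if_neg ha]; simp
          · intro h; exact absurd (Finset.mem_univ _) h
        rw [e2, ← Finset.sum_sub_distrib]
        refine Finset.sum_congr rfl fun a _ => ?_
        rw [Complex.ofReal_sub]
        ring
      rw [e1, Finset.mul_sum]
      refine (norm_sum_le _ _).trans (Finset.sum_le_sum fun a _ => ?_)
      rw [norm_mul, Complex.norm_real, Real.norm_eq_abs]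
      refine mul_le_mul_of_nonneg_right ?_ (norm_nonneg _)
      exact hkg c (fun j => ⟨(bx_nn hc j).1, (bx_nn hc j).2.trans hUA⟩) a
    have iTA : ∀ a : Fin n → Fin (n + 2), Integrable (fun c => ‖TA k Z a K T c‖) (mB n 0 U) := fun a =>
      mBc_int (cTA a).norm
    calc _ ≤ ∫ c, C2 * (L ^ n / L) * ∑ a : Fin n → Fin (n + 2), ‖TA k Z a K T c‖ ∂(mB n 0 U) := by
          refine integral_mono_ae (mBc_int (hF5'.sub (continuousOn_const.mul c6)).norm)
            ((integrable_finsetSum _ fun a _ => iTA a).const_mul _) ?_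
          rw [mB_eq]
          exact (ae_restrict_iff' measurableSet_Icc).mpr (Eventually.of_forall hpt)
      _ = C2 * (L ^ n / L) * ∑ a : Fin n → Fin (n + 2), ∫ c, ‖TA k Z a K T c‖ ∂(mB n 0 U) := by
          rw [integral_const_mul, integral_finsetSum _ fun a _ => iTA a]
      _ ≤ C2 * (L ^ n / L) * ∑ _a : Fin n → Fin (n + 2), (√CL * L ^ 4 * U ^ n) := by
          refine mul_le_mul_of_nonneg_left (Finset.sum_le_sum fun a _ => bTA a) (by positivity)
      _ = _ := by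
          rw [Finset.sum_const, Finset.card_univ, Fintype.card_fun, Fintype.card_fin, Fintype.card_fin, nsmul_eq_mul]
          push_cast
          ring
  have b6 : ∫ c, ‖F6 c - F7 c‖ ∂(mB n 0 U) ≤ ε / 4 * L ^ 4 * U ^ n := by
    refine mBc_cs hUp.le (c6.sub c7) (by positivity) ?_
    refine (hT0 K hκ2 hK3 U Z hTU hUA hZ).trans (le_of_eq ?_)
    ring
  -- the sum
  have hLn : 0 < L ^ (n + 4) := by positivity
  have hpt : ∀ c, ‖((WW K T c / L ^ (n + 4) : ℝ) : ℂ) - ((1 / (2 * Real.pi ^ 2) : ℝ) : ℂ) * BY n Y c‖ ≤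
      (L ^ (n + 4))⁻¹ * (|F1 c - F2 c| + (‖((F2 c : ℝ) : ℂ) - F3 c‖ + (‖F3 c - F4 c‖ + (‖F4 c - F5 c‖ +
        (‖F5 c - ((L ^ n : ℝ) : ℂ) * F6 c‖ + L ^ n * ‖F6 c - F7 c‖))))) := by
    intro c
    have e1 : ((WW K T c / L ^ (n + 4) : ℝ) : ℂ) - ((1 / (2 * Real.pi ^ 2) : ℝ) : ℂ) * BY n Y c =
        (((L ^ (n + 4))⁻¹ : ℝ) : ℂ) * (((F1 c - F2 c : ℝ) : ℂ) + ((((F2 c : ℝ) : ℂ) - F3 c) + ((F3 c - F4 c) +
          ((F4 c - F5 c) + ((F5 c - ((L ^ n : ℝ) : ℂ) * F6 c) + ((L ^ n : ℝ) : ℂ) * (F6 c - F7 c)))))) := by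
      have hLc : (L : ℂ) ≠ 0 := by exact_mod_cast hL0.ne'
      have hp : (Real.pi : ℂ) ≠ 0 := by exact_mod_cast Real.pi_ne_zero
      have e2 : ((F1 c - F2 c : ℝ) : ℂ) + ((((F2 c : ℝ) : ℂ) - F3 c) + ((F3 c - F4 c) +
          ((F4 c - F5 c) + ((F5 c - ((L ^ n : ℝ) : ℂ) * F6 c) + ((L ^ n : ℝ) : ℂ) * (F6 c - F7 c))))) =
          ((F1 c : ℝ) : ℂ) - ((L ^ n : ℝ) : ℂ) * F7 c := by
        push_cast
        ring
      rw [e2]
      simp only [hF1, hF7]
      push_cast
      field_simp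
      ring
    rw [e1, norm_mul, Complex.norm_real, Real.norm_eq_abs, abs_of_pos (by positivity)]
    refine mul_le_mul_of_nonneg_left ?_ (by positivity)
    have e3 : ‖((F1 c - F2 c : ℝ) : ℂ)‖ = |F1 c - F2 c| := by rw [Complex.norm_real, Real.norm_eq_abs]
    have e4 : ‖((L ^ n : ℝ) : ℂ) * (F6 c - F7 c)‖ = L ^ n * ‖F6 c - F7 c‖ := by
      rw [norm_mul, Complex.norm_real, Real.norm_eq_abs, abs_of_pos (by positivity)]
    rw [← e3, ← e4]
    refine (norm_add_le _ _).trans (add_le_add le_rfl ((norm_add_le _ _).trans (add_le_add le_rfl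
      ((norm_add_le _ _).trans (add_le_add le_rfl ((norm_add_le _ _).trans (add_le_add le_rfl
      (norm_add_le _ _))))))))
  have i1 : Integrable (fun c => |F1 c - F2 c|) (mB n 0 U) := mBc_int (c1.sub c2).abs
  have i2 : Integrable (fun c => ‖((F2 c : ℝ) : ℂ) - F3 c‖) (mB n 0 U) :=
    mBc_int ((Complex.continuous_ofReal.comp_continuousOn c2).sub c3).norm
  have i3 : Integrable (fun c => ‖F3 c - F4 c‖) (mB n 0 U) := mBc_int (c3.sub c4).norm
  have i4 : Integrable (fun c => ‖F4 c - F5 c‖) (mB n 0 U) := mBc_int (c4.sub hF5').norm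
  have i5 : Integrable (fun c => ‖F5 c - ((L ^ n : ℝ) : ℂ) * F6 c‖) (mB n 0 U) :=
    mBc_int (hF5'.sub (continuousOn_const.mul c6)).norm
  have i6 : Integrable (fun c => L ^ n * ‖F6 c - F7 c‖) (mB n 0 U) := (mBc_int (c6.sub c7).norm).const_mul _
  obtain ⟨i7, e7⟩ := int_add6 i1 i2 i3 i4 i5 i6
  calc _ ≤ ∫ c, (L ^ (n + 4))⁻¹ * (|F1 c - F2 c| + (‖((F2 c : ℝ) : ℂ) - F3 c‖ + (‖F3 c - F4 c‖ + (‖F4 c - F5 c‖ +
        (‖F5 c - ((L ^ n : ℝ) : ℂ) * F6 c‖ + L ^ n * ‖F6 c - F7 c‖))))) ∂(mB n 0 U) :=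
        integral_mono_of_nonneg (Eventually.of_forall fun c => norm_nonneg _) (i7.const_mul _)
          (Eventually.of_forall hpt)
    _ = (L ^ (n + 4))⁻¹ * ((∫ c, |F1 c - F2 c| ∂(mB n 0 U)) + ((∫ c, ‖((F2 c : ℝ) : ℂ) - F3 c‖ ∂(mB n 0 U)) +
        ((∫ c, ‖F3 c - F4 c‖ ∂(mB n 0 U)) + ((∫ c, ‖F4 c - F5 c‖ ∂(mB n 0 U)) +
        ((∫ c, ‖F5 c - ((L ^ n : ℝ) : ℂ) * F6 c‖ ∂(mB n 0 U)) + L ^ n * ∫ c, ‖F6 c - F7 c‖ ∂(mB n 0 U)))))) := by
        rw [integral_const_mul, e7, integral_const_mul]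
    _ ≤ (L ^ (n + 4))⁻¹ * (C1 * (U ^ n * L ^ (n + 3)) + (U ^ n + (1 * U ^ n + (CT * (U ^ n * L ^ (n + 3)) +
        (C2 * (L ^ n / L) * (((n + 2 : ℕ) : ℝ) ^ n * (√CL * L ^ 4 * U ^ n)) + L ^ n * (ε / 4 * L ^ 4 * U ^ n)))))) := by
        gcongr
    _ ≤ (CC / L + ε / 4) * U ^ n := by
        have hLL : 1 ≤ L ^ (n + 3) := one_le_pow₀ hL1
        have e8 : (CC / L + ε / 4) * U ^ n = (L ^ (n + 4))⁻¹ * (CC * (U ^ n * L ^ (n + 3)) +
            L ^ n * (ε / 4 * L ^ 4 * U ^ n)) := by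
          field_simp
          ring
        have e9 : C2 * (L ^ n / L) * (((n + 2 : ℕ) : ℝ) ^ n * (√CL * L ^ 4 * U ^ n)) =
            C2 * ((n + 2 : ℕ) : ℝ) ^ n * √CL * (U ^ n * L ^ (n + 3)) := by
          field_simp
          ring
        rw [e8, e9, hCC]
        refine mul_le_mul_of_nonneg_left ?_ (by positivity)
        have h9 : U ^ n ≤ U ^ n * L ^ (n + 3) := le_mul_of_one_le_right hUn.le hLL
        nlinarith
    _ ≤ (ε / 4 + ε / 4) * U ^ n := by
        refine mul_le_mul_of_nonneg_right ?_ hUn.le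
        have h9 : CC / L ≤ ε / 4 := by
          rw [div_le_iff₀ hL0]
          rw [div_le_iff₀ hε] at hLC
          linarith
        linarith
    _ ≤ ε * U ^ n := by
        refine mul_le_mul_of_nonneg_right ?_ hUn.le
        linarith

end

end Pool.Agent.Y969.SM
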