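import Pool.Agent.Y969.SM.Fin
import Pool.Agent.Y969.SM.Win
import Pool.Agent.Y587.GP.V
import Pool.Agent.Y587.GP.Chi
import Pool.Agent.Y891.GP.AFE
import Pool.Agent.Y379.GP.Sp
import Pool.Agent.Y125.GP.LSW
import Pool.Agent.Y545.GP.CR
import Pool.Agent.Y363.GP.ZL
import Pool.Agent.Y360.SX.F8
import Pool.Agent.Y429.SX.FB
import Pool.Agent.Y780.SX.Blk
import Pool.Agent.Y547.SX.Min
import Pool.Agent.Y246.SX.W1
import Pool.Agent.Y448.SX.W2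
import Pool.Agent.Y620.SX.CRA
import Pool.Agent.Y812.SX.OMX
import Pool.Agent.Y953.SX.Ort
import Pool.Agent.Y76.SX.ARI
import Pool.Agent.Y726.SX.TWC
import Pool.Agent.Y369.SX.Ars
import Pool.Agent.Y4.SX.UB
import Pool.Agent.Y901.SX.A1
import Pool.Agent.Y54.SX.A2
import Pool.Agent.Y670.SX.TAY
import Pool.Agent.Y852.SX.Loc
import Pool.Agent.Y686.SX.Lsm
import Pool.Agent.Y983.SX.EUT
import Pool.Agent.Y978.SX.EUL
import Pool.Agent.Y293.SX.TL2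
import Pool.Agent.Y81.SX.T0
import Pool.Agent.Y77.SX.CTW
import Pool.Agent.Y475.SX.SHP

set_option autoImplicit false

/-! Project SX: the main theorem, from the three inputs which need the large library. -/

namespace Pool.Agent.Y969.SM

open Filter Topology MeasureTheory
open Pool.Agent.H306R2.SM (om cl Yf)
open Pool.Agent.H262R4.TM (Rng Ck)

/-- `S_FA` gives the form used by `MIN` and `W2` -/
lemma FA5 {k : ℕ} (h : S_FA k) : ∀ᶠ T : ℝ in atTop, ∀ κ : ℕ, Rng T κ →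
    ∫ t in Set.Ioi (0:ℝ), om κ (κ / T) t * |F0 k T t| ≤ Real.log T ^ 5 ∧
    IntegrableOn (fun t => om κ (κ / T) t * |F0 k T t|) (Set.Ioi 0) := by
  obtain ⟨C, hC, h⟩ := h
  filter_upwards [h, Real.tendsto_log_atTop.eventually_ge_atTop C, Real.tendsto_log_atTop.eventually_ge_atTop 0]
    with T h hL hL0 κ hκ
  obtain ⟨_, h2, _, _, h5, _⟩ := h κ hκ
  refine ⟨h5.trans ?_, h2⟩
  calc C * Real.log T ^ 4 ≤ Real.log T * Real.log T ^ 4 := mul_le_mul_of_nonneg_right hL (by positivity)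
    _ = Real.log T ^ 5 := by ring

/-- `S_FA` gives the fourth moment in the windows -/
lemma FA4 {k : ℕ} (h : S_FA k) : ∃ C : ℝ, 0 < C ∧ ∀ᶠ T : ℝ in atTop, ∀ κ : ℕ, Rng T κ →
    ∫ t in Set.Ioi (0:ℝ), om κ (κ / T) t * Xz t ^ 4 ≤ C * Real.log T ^ 4 := by
  obtain ⟨C, hC, h⟩ := h
  refine ⟨C, hC, ?_⟩
  filter_upwards [h] with T h κ hκ
  exact (h κ hκ).2.2.2.2.2

/-- the main theorem of the project, from the three inputs which need the large library -/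
theorem main_of (hFA0 : ∃ k0 : ℕ, ∀ k : ℕ, k0 ≤ k → S_FA k) (hUB0 : ∀ k : ℕ, 2 ≤ k → S_UB0 k)
    (hAS0 : (∃ k : ℕ, 2 ≤ k ∧ S_FA k) → S_AS) : S_MAIN := by
  obtain ⟨k0, hk0⟩ := hFA0
  obtain ⟨k, hk1, hk2⟩ : ∃ k : ℕ, k0 ≤ k ∧ 2 ≤ k := ⟨max k0 2, le_max_left _ _, le_max_right _ _⟩
  have hFA : S_FA k := hk0 k hk1
  have hFB : S_FB k := Pool.Agent.Y429.SX.t_FB Pool.Agent.Y360.SX.t_F8 k hk2
  have hV := Pool.Agent.Y587.GP.t_V
  have hAFE := Pool.Agent.Y891.GP.t_AFE hV Pool.Agent.Y587.GP.Chi.t_CHI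
  have hSP := Pool.Agent.Y379.GP.t_SP
  have hLSW := Pool.Agent.Y125.GP.t_LSW hSP
  have hCR := Pool.Agent.Y545.GP.t_CR hV
  have hSM := Pool.Agent.Y363.GP.t_SM
  have hORT := Pool.Agent.Y953.SX.t_ORT hSP
  have hARI := Pool.Agent.Y76.SX.t_ARI
  have hUB := Pool.Agent.Y4.SX.t_UB k (hUB0 k hk2) hFB
  have hAS := hAS0 ⟨k, hk2, hFA⟩
  have hTAY := Pool.Agent.Y670.SX.t_TAY k (Pool.Agent.Y620.SX.t_CRA hV) Pool.Agent.Y812.SX.t_OMX hORT hFA hFB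
  have hCTW := Pool.Agent.Y77.SX.t_CTW
  have hWIN : S_WIN := t_WIN k hFB (Pool.Agent.Y246.SX.t_W1 k hFA hFB hSM)
    (Pool.Agent.Y448.SX.t_W2 k hFB (FA5 hFA) hAFE hSM)
    (Pool.Agent.Y547.SX.t_MIN k Pool.Agent.Y780.SX.t_BLK hFB (FA5 hFA) hLSW hCR) hTAY
    (Pool.Agent.Y293.SX.t_TL2 k hUB hORT hARI hFB)
    (Pool.Agent.Y81.SX.T0.t_T0 k hUB hAS hFA hORT hARI Pool.Agent.Y76.SX.t_W2B hFB) hCTW hV
  have hEUL := Pool.Agent.Y978.SX.t_EUL Pool.Agent.Y852.SX.t_LOC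
    (Pool.Agent.Y983.SX.EUT.t_EUT Pool.Agent.Y686.SX.t_LSM) hORT hARI Pool.Agent.Y76.SX.t_W2B
  exact t_MAIN hWIN (Pool.Agent.Y475.SX.t_SHP hSM hCTW (FA4 hFA)) hEUL hCTW

end Pool.Agent.Y969.SM
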