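import Pool.Agent.Y969.SM.Rel

set_option autoImplicit false

/-! Project SX: the final forms, in elementary notation. -/

namespace Pool.Agent.Y969.SM

open Finset Filter Topology MeasureTheory Complex
open Pool.Agent.Y969.GP (ff ht lam FR PX cr V mB)

noncomputable section

lemma MM_eq {n : ℕ} (T : ℝ) (c : Fin n → ℝ) :
    (∫ t in (0:ℝ)..T, Xz t ^ 4 * ∏ j, ff (t + c j)) =
      ∫ t in (0:ℝ)..T, ‖riemannZeta (1 / 2 + I * t)‖ ^ 4 * ∏ j, ‖riemannZeta (1 / 2 + I * (t + c j))‖ ^ 2 := by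
  refine intervalIntegral.integral_congr fun t _ => ?_
  simp only [Xz_eq]
  unfold ff
  push_cast
  rfl

/-- general form -/
theorem res_gen (h1 : S_MAIN) (h2 : S_REL) (h3 : S_AA) (n : ℕ) :
    (∃ C : ℝ, ∀ c : Fin n → ℝ, ∀ p : ℕ, p.Prime → |loc c p * ep c p - 1| ≤ C / (p:ℝ) ^ 2) ∧
    ∀ ε : ℝ, 0 < ε → ∃ T₀ : ℝ, ∀ T : ℝ, T₀ ≤ T →
      IntegrableOn (fun c : Fin n → ℝ => |(∫ t in (0:ℝ)..T, ‖riemannZeta (1 / 2 + I * t)‖ ^ 4 *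
          ∏ j, ‖riemannZeta (1 / 2 + I * (t + c j))‖ ^ 2) / (T * Real.log T ^ (n + 4)) -
          1 / 12 * SS (Real.log T) c|) {c | ∀ j, c j ∈ Set.Icc 0 T} ∧
      ∫ c in {c : Fin n → ℝ | ∀ j, c j ∈ Set.Icc 0 T}, |(∫ t in (0:ℝ)..T, ‖riemannZeta (1 / 2 + I * t)‖ ^ 4 *
          ∏ j, ‖riemannZeta (1 / 2 + I * (t + c j))‖ ^ 2) / (T * Real.log T ^ (n + 4)) -
          1 / 12 * SS (Real.log T) c| ≤ ε * T ^ n ∧
      volume {c : Fin n → ℝ | (∀ j, c j ∈ Set.Icc 0 T) ∧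
        ¬ |(∫ t in (0:ℝ)..T, ‖riemannZeta (1 / 2 + I * t)‖ ^ 4 *
          ∏ j, ‖riemannZeta (1 / 2 + I * (t + c j))‖ ^ 2) /
          (1 / 12 * AA c * zp c * (T * Real.log T ^ (n + 4))) - 1| ≤ ε} ≤ ENNReal.ofReal (ε * T ^ n) := by
  refine ⟨?_, fun ε hε => ?_⟩
  · obtain ⟨C, _, hC⟩ := h3 n
    exact ⟨C, fun c p hp => ((hC c).1 p hp).2⟩
  · obtain ⟨T₀, hT₀⟩ := eventually_atTop.1 ((h1 n ε hε).and (h2 n ε hε))
    refine ⟨T₀, fun T hT => ?_⟩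
    obtain ⟨q1, q2⟩ := hT₀ T hT
    have hset : {c : Fin n → ℝ | ∀ j, c j ∈ Set.Icc 0 T} = Set.Icc (fun _ => 0) (fun _ => T) := by
      ext c
      simp only [Set.mem_ofPred_eq, Set.mem_Icc, Pi.le_def]
      exact forall_and
    rw [hset]
    rw [mB_eq] at q1
    refine ⟨?_, ?_, ?_⟩
    · have hc : Continuous fun c : Fin n → ℝ => |(∫ t in (0:ℝ)..T, Xz t ^ 4 * ∏ j, ff (t + c j)) /
          (T * Real.log T ^ (n + 4)) - 1 / 12 * SS (Real.log T) c| :=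
        ((((I_cont T).div_const _)).sub ((SS_cont _).const_mul _)).abs
      have := hc.continuousOn.integrableOn_compact (μ := volume)
        (isCompact_Icc (a := fun _ : Fin n => (0:ℝ)) (b := fun _ => T))
      simpa only [MM_eq] using this
    · simpa only [MM_eq] using q1
    · have e : ∀ c : Fin n → ℝ, 1 / 12 * AA c * zp c * (T * Real.log T ^ (n + 4)) =
          1 / 12 * (zp c * AA c) * (T * Real.log T ^ (n + 4)) := fun c => by ring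
      simpa only [MM_eq, e, Set.mem_Icc] using q2

/-- one shift -/
theorem res_one (h1 : S_MAIN) (h2 : S_REL) (h3 : S_AA) :
    (∃ C : ℝ, ∀ c : ℝ, ∀ p : ℕ, p.Prime → |loc (fun _ : Fin 1 => c) p * ep (fun _ : Fin 1 => c) p - 1| ≤
      C / (p:ℝ) ^ 2) ∧
    ∀ ε : ℝ, 0 < ε → ∃ T₀ : ℝ, ∀ T : ℝ, T₀ ≤ T →
      IntegrableOn (fun c : ℝ => |(∫ t in (0:ℝ)..T, ‖riemannZeta (1 / 2 + I * t)‖ ^ 4 *
          ‖riemannZeta (1 / 2 + I * (t + c))‖ ^ 2) / (T * Real.log T ^ 5) -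
          1 / 12 * SS (Real.log T) (fun _ : Fin 1 => c)|) (Set.Icc 0 T) ∧
      ∫ c in Set.Icc 0 T, |(∫ t in (0:ℝ)..T, ‖riemannZeta (1 / 2 + I * t)‖ ^ 4 *
          ‖riemannZeta (1 / 2 + I * (t + c))‖ ^ 2) / (T * Real.log T ^ 5) -
          1 / 12 * SS (Real.log T) (fun _ : Fin 1 => c)| ≤ ε * T ∧
      volume {c : ℝ | c ∈ Set.Icc 0 T ∧
        ¬ |(∫ t in (0:ℝ)..T, ‖riemannZeta (1 / 2 + I * t)‖ ^ 4 *
          ‖riemannZeta (1 / 2 + I * (t + c))‖ ^ 2) /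
          (1 / 12 * AA (fun _ : Fin 1 => c) * zp (fun _ : Fin 1 => c) * (T * Real.log T ^ 5)) - 1| ≤ ε} ≤
        ENNReal.ofReal (ε * T) := by
  obtain ⟨⟨C, hC⟩, h⟩ := res_gen h1 h2 h3 1
  refine ⟨⟨C, fun c p hp => hC _ p hp⟩, fun ε hε => ?_⟩
  obtain ⟨T₀, h⟩ := h ε hε
  refine ⟨T₀, fun T hT => ?_⟩
  obtain ⟨q1, q2, q3⟩ := h T hT
  have hmp := volume_preserving_funUnique (Fin 1) ℝ
  have he : ∀ c : Fin 1 → ℝ, c = fun _ => (MeasurableEquiv.funUnique (Fin 1) ℝ) c := by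
    intro c
    funext j
    have : j = default := Subsingleton.elim _ _
    rw [this]
    rfl
  have hs1 : {c : Fin 1 → ℝ | ∀ j, c j ∈ Set.Icc 0 T} =
      (MeasurableEquiv.funUnique (Fin 1) ℝ) ⁻¹' (Set.Icc 0 T) := by
    ext c
    simp only [Set.mem_ofPred_eq, Set.mem_preimage]
    rw [he c]
    exact ⟨fun hh => hh default, fun hh _ => hh⟩
  set F : ℝ → ℝ := fun c => |(∫ t in (0:ℝ)..T, ‖riemannZeta (1 / 2 + I * t)‖ ^ 4 *
          ‖riemannZeta (1 / 2 + I * (t + c))‖ ^ 2) / (T * Real.log T ^ 5) -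
          1 / 12 * SS (Real.log T) (fun _ : Fin 1 => c)| with hF
  have hFe : (fun c : Fin 1 → ℝ => |(∫ t in (0:ℝ)..T, ‖riemannZeta (1 / 2 + I * t)‖ ^ 4 *
          ∏ j, ‖riemannZeta (1 / 2 + I * (t + c j))‖ ^ 2) / (T * Real.log T ^ (1 + 4)) -
          1 / 12 * SS (Real.log T) c|) = F ∘ (MeasurableEquiv.funUnique (Fin 1) ℝ) := by
    funext c
    rw [he c]
    simp only [Function.comp_apply, hF, Fin.prod_univ_one]
    rfl
  rw [hs1] at q1 q2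
  rw [hFe] at q1
  refine ⟨?_, ?_, ?_⟩
  · exact (hmp.integrableOn_comp_preimage (MeasurableEquiv.measurableEmbedding _)).1 q1
  · have : ∫ c in (MeasurableEquiv.funUnique (Fin 1) ℝ) ⁻¹' (Set.Icc 0 T),
        (F ∘ (MeasurableEquiv.funUnique (Fin 1) ℝ)) c = ∫ c in Set.Icc 0 T, F c :=
      hmp.setIntegral_preimage_emb (MeasurableEquiv.measurableEmbedding _) F _
    rw [← this, ← hFe]
    simpa using q2
  · have hpre : {c : Fin 1 → ℝ | (∀ j, c j ∈ Set.Icc 0 T) ∧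
        ¬ |(∫ t in (0:ℝ)..T, ‖riemannZeta (1 / 2 + I * t)‖ ^ 4 *
          ∏ j, ‖riemannZeta (1 / 2 + I * (t + c j))‖ ^ 2) /
          (1 / 12 * AA c * zp c * (T * Real.log T ^ (1 + 4))) - 1| ≤ ε} =
        (MeasurableEquiv.funUnique (Fin 1) ℝ) ⁻¹' {c : ℝ | c ∈ Set.Icc 0 T ∧
        ¬ |(∫ t in (0:ℝ)..T, ‖riemannZeta (1 / 2 + I * t)‖ ^ 4 *
          ‖riemannZeta (1 / 2 + I * (t + c))‖ ^ 2) /
          (1 / 12 * AA (fun _ : Fin 1 => c) * zp (fun _ : Fin 1 => c) * (T * Real.log T ^ 5)) - 1| ≤ ε} := by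
      ext c
      simp only [Set.mem_preimage, Set.mem_ofPred_eq, Fin.prod_univ_one]
      rw [he c]
      refine and_congr ⟨fun hh => hh default, fun hh _ => hh⟩ Iff.rfl
    rw [hpre, pow_one] at q3
    exact (le_of_eq (hmp.measure_preimage_equiv _).symm).trans q3

/-- two shifts -/
theorem res_two (h1 : S_MAIN) (h2 : S_REL) (h3 : S_AA) :
    (∃ C : ℝ, ∀ a b : ℝ, ∀ p : ℕ, p.Prime → |loc ![a, b] p * ep ![a, b] p - 1| ≤ C / (p:ℝ) ^ 2) ∧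
    ∀ ε : ℝ, 0 < ε → ∃ T₀ : ℝ, ∀ T : ℝ, T₀ ≤ T →
      IntegrableOn (fun x : ℝ × ℝ => |(∫ t in (0:ℝ)..T, ‖riemannZeta (1 / 2 + I * t)‖ ^ 4 *
          (‖riemannZeta (1 / 2 + I * (t + x.1))‖ ^ 2 * ‖riemannZeta (1 / 2 + I * (t + x.2))‖ ^ 2)) /
          (T * Real.log T ^ 6) - 1 / 12 * SS (Real.log T) ![x.1, x.2]|) (Set.Icc 0 T ×ˢ Set.Icc 0 T) ∧
      ∫ x in Set.Icc 0 T ×ˢ Set.Icc 0 T, |(∫ t in (0:ℝ)..T, ‖riemannZeta (1 / 2 + I * t)‖ ^ 4 *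
          (‖riemannZeta (1 / 2 + I * (t + x.1))‖ ^ 2 * ‖riemannZeta (1 / 2 + I * (t + x.2))‖ ^ 2)) /
          (T * Real.log T ^ 6) - 1 / 12 * SS (Real.log T) ![x.1, x.2]| ≤ ε * T ^ 2 ∧
      volume {x : ℝ × ℝ | x ∈ Set.Icc 0 T ×ˢ Set.Icc 0 T ∧
        ¬ |(∫ t in (0:ℝ)..T, ‖riemannZeta (1 / 2 + I * t)‖ ^ 4 *
          (‖riemannZeta (1 / 2 + I * (t + x.1))‖ ^ 2 * ‖riemannZeta (1 / 2 + I * (t + x.2))‖ ^ 2)) /
          (1 / 12 * AA ![x.1, x.2] * zp ![x.1, x.2] * (T * Real.log T ^ 6)) - 1| ≤ ε} ≤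
        ENNReal.ofReal (ε * T ^ 2) := by
  obtain ⟨⟨C, hC⟩, h⟩ := res_gen h1 h2 h3 2
  refine ⟨⟨C, fun a b p hp => hC _ p hp⟩, fun ε hε => ?_⟩
  obtain ⟨T₀, h⟩ := h ε hε
  refine ⟨T₀, fun T hT => ?_⟩
  obtain ⟨q1, q2, q3⟩ := h T hT
  have hmp : MeasurePreserving (MeasurableEquiv.finTwoArrow (α := ℝ)) volume volume :=
    volume_preserving_finTwoArrow ℝ
  have he : ∀ c : Fin 2 → ℝ, c = ![((MeasurableEquiv.finTwoArrow (α := ℝ)) c).1,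
      ((MeasurableEquiv.finTwoArrow (α := ℝ)) c).2] := by
    intro c
    funext j
    fin_cases j <;> rfl
  have hs1 : {c : Fin 2 → ℝ | ∀ j, c j ∈ Set.Icc 0 T} =
      (MeasurableEquiv.finTwoArrow (α := ℝ)) ⁻¹' (Set.Icc 0 T ×ˢ Set.Icc 0 T) := by
    ext c
    simp only [Set.mem_ofPred_eq, Set.mem_preimage, Set.mem_prod, Fin.forall_fin_two]
    rfl
  set F : ℝ × ℝ → ℝ := fun x => |(∫ t in (0:ℝ)..T, ‖riemannZeta (1 / 2 + I * t)‖ ^ 4 *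
          (‖riemannZeta (1 / 2 + I * (t + x.1))‖ ^ 2 * ‖riemannZeta (1 / 2 + I * (t + x.2))‖ ^ 2)) /
          (T * Real.log T ^ 6) - 1 / 12 * SS (Real.log T) ![x.1, x.2]| with hF
  have hFe : (fun c : Fin 2 → ℝ => |(∫ t in (0:ℝ)..T, ‖riemannZeta (1 / 2 + I * t)‖ ^ 4 *
          ∏ j, ‖riemannZeta (1 / 2 + I * (t + c j))‖ ^ 2) / (T * Real.log T ^ (2 + 4)) -
          1 / 12 * SS (Real.log T) c|) = F ∘ (MeasurableEquiv.finTwoArrow (α := ℝ)) := by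
    funext c
    rw [he c]
    simp only [Function.comp_apply, hF, Fin.prod_univ_two]
    rfl
  rw [hs1] at q1 q2
  rw [hFe] at q1
  refine ⟨?_, ?_, ?_⟩
  · exact (hmp.integrableOn_comp_preimage (MeasurableEquiv.measurableEmbedding _)).1 q1
  · have : ∫ c in (MeasurableEquiv.finTwoArrow (α := ℝ)) ⁻¹' (Set.Icc 0 T ×ˢ Set.Icc 0 T),
        (F ∘ (MeasurableEquiv.finTwoArrow (α := ℝ))) c = ∫ x in Set.Icc 0 T ×ˢ Set.Icc 0 T, F x :=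
      hmp.setIntegral_preimage_emb (MeasurableEquiv.measurableEmbedding _) F _
    rw [← this, ← hFe]
    exact q2
  · have hpre : {c : Fin 2 → ℝ | (∀ j, c j ∈ Set.Icc 0 T) ∧
        ¬ |(∫ t in (0:ℝ)..T, ‖riemannZeta (1 / 2 + I * t)‖ ^ 4 *
          ∏ j, ‖riemannZeta (1 / 2 + I * (t + c j))‖ ^ 2) /
          (1 / 12 * AA c * zp c * (T * Real.log T ^ (2 + 4))) - 1| ≤ ε} =
        (MeasurableEquiv.finTwoArrow (α := ℝ)) ⁻¹' {x : ℝ × ℝ | x ∈ Set.Icc 0 T ×ˢ Set.Icc 0 T ∧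
        ¬ |(∫ t in (0:ℝ)..T, ‖riemannZeta (1 / 2 + I * t)‖ ^ 4 *
          (‖riemannZeta (1 / 2 + I * (t + x.1))‖ ^ 2 * ‖riemannZeta (1 / 2 + I * (t + x.2))‖ ^ 2)) /
          (1 / 12 * AA ![x.1, x.2] * zp ![x.1, x.2] * (T * Real.log T ^ 6)) - 1| ≤ ε} := by
      ext c
      simp only [Set.mem_preimage, Set.mem_ofPred_eq, Fin.prod_univ_two, Set.mem_prod, Fin.forall_fin_two]
      rw [← he c]
      rfl
    rw [hpre] at q3
    exact (le_of_eq (hmp.measure_preimage_equiv _).symm).trans q3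

end

end Pool.Agent.Y969.SM
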