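import Pool.Agent.Y969.SM.FinB
import Pool.Agent.Y969.SM.Res
import Pool.Agent.Y781.SX.LB
import Pool.Agent.Y514.SX.ZE
import Pool.Agent.Y81.SX.AAP
import Pool.Agent.Y96.SX.ZM

set_option autoImplicit false

/-! Project SX: the relative form. -/

namespace Pool.Agent.Y969.SM

theorem aa : S_AA := Pool.Agent.Y81.SX.AAP.t_AA Pool.Agent.Y852.SX.t_LOC

theorem rel : S_REL :=
  t_REL main (Pool.Agent.Y781.SX.t_LB Pool.Agent.Y852.SX.t_LOC)
    (Pool.Agent.Y514.SX.t_ZE aa Pool.Agent.Y96.SX.t_ZM)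

end Pool.Agent.Y969.SM
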