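import Pool.Agent.Y969.SM.Stm2

set_option autoImplicit false

/-! Project SX: the main term in terms of zeta on the line one, and its size. -/

namespace Pool.Agent.Y969.SM

open Finset Filter Topology MeasureTheory Complex
open Pool.Agent.Y969.GP (ff ht lam FR PX cr V mB)

noncomputable section

/-- the zeta factors of the main term -/
def zp {n : ℕ} (c : Fin n → ℝ) : ℝ :=
  (∏ j, ‖riemannZeta (1 + I * c j)‖ ^ 4) *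
    ∏ i, ∏ j ∈ Finset.Ioi i, ‖riemannZeta (1 + I * (c i - c j))‖ ^ 2

/-- the inverse of their Euler factors at `p` -/
def ep {n : ℕ} (c : Fin n → ℝ) (p : ℕ) : ℝ :=
  (∏ j, ‖1 - (p : ℂ) ^ (-(1 + I * c j))‖ ^ 4) *
    ∏ i, ∏ j ∈ Finset.Ioi i, ‖1 - (p : ℂ) ^ (-(1 + I * (c i - c j)))‖ ^ 2

/-- the arithmetic factor -/
def AA {n : ℕ} (c : Fin n → ℝ) : ℝ := ∏' p : Nat.Primes, loc c p * ep c p

/-- LB: the product of the local densities is rarely small -/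
def S_LB : Prop := ∀ (n : ℕ) (ε : ℝ), 0 < ε → ∃ η : ℝ, 0 < η ∧ ∀ᶠ U : ℝ in atTop,
  (mB n 0 U).real {c | SS (Real.log U) c ≤ η} ≤ ε * U ^ n

/-- AA: the arithmetic factor converges -/
def S_AA : Prop := ∀ n : ℕ, ∃ C : ℝ, 0 < C ∧ ∀ c : Fin n → ℝ,
  (∀ p : ℕ, p.Prime → 0 ≤ loc c p * ep c p ∧ |loc c p * ep c p - 1| ≤ C / (p : ℝ) ^ 2) ∧
  (∀ y : ℝ, 1 ≤ y → |(∏ p ∈ (Finset.range (⌊y⌋₊ + 1)).filter Nat.Prime, loc c p * ep c p) - AA c| ≤ C / y) ∧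
  (∀ y : ℝ, 1 ≤ y → 0 ≤ (∏ p ∈ (Finset.range (⌊y⌋₊ + 1)).filter Nat.Prime, loc c p * ep c p) ∧
    (∏ p ∈ (Finset.range (⌊y⌋₊ + 1)).filter Nat.Prime, loc c p * ep c p) ≤ C) ∧ |AA c| ≤ C

/-- the finite product -/
def Py (y x : ℝ) : ℂ := ∏ p ∈ (Finset.range (⌊y⌋₊ + 1)).filter Nat.Prime, (1 - (p : ℂ) ^ (-(1 + I * x)))

/-- ZM: mean squares on the line one -/
def S_ZM : Prop :=
  (∀ ε : ℝ, 0 < ε → ∀ᶠ U : ℝ in atTop,
    ∫ x in (1:ℝ)..U, ‖riemannZeta (1 + I * x) * Py (Real.log U) x - 1‖ ^ 2 ≤ ε * U) ∧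
  ∃ C : ℝ, 0 < C ∧ ∀ᶠ U : ℝ in atTop, ∫ x in (1:ℝ)..U, ‖riemannZeta (1 + I * x)‖ ^ 2 ≤ C * U

/-- ZE: the product of the local densities against the zeta factors -/
def S_ZE : Prop := ∀ (n : ℕ) (ε : ℝ), 0 < ε → ∀ᶠ U : ℝ in atTop,
  (mB n 0 U).real {c | ε ≤ |SS (Real.log U) c - zp c * AA c|} ≤ ε * U ^ n

end

end Pool.Agent.Y969.SM
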