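import Pool.Agent.Y969.SM.Bas
import Pool.Agent.Y969.SM.Stm3

set_option autoImplicit false

/-! Project SX: the relative form of the main theorem. -/

namespace Pool.Agent.Y969.SM

open Finset Filter Topology MeasureTheory Complex
open Pool.Agent.Y969.GP (ff ht lam FR PX cr V mB)

noncomputable section

/-- relative form -/
def S_REL : Prop := ∀ (n : ℕ) (ε : ℝ), 0 < ε → ∀ᶠ T : ℝ in atTop,
  volume {c : Fin n → ℝ | (∀ j, 0 ≤ c j ∧ c j ≤ T) ∧
    ¬ |(∫ t in (0:ℝ)..T, Xz t ^ 4 * ∏ j, ff (t + c j)) /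
      (1 / 12 * (zp c * AA c) * (T * Real.log T ^ (n + 4))) - 1| ≤ ε} ≤ ENNReal.ofReal (ε * T ^ n)

lemma mB_markov {n : ℕ} {T : ℝ} {W : (Fin n → ℝ) → ℝ} (hW : Continuous W) (h0 : ∀ c, 0 ≤ W c) {B l : ℝ}
    (hB : ∫ c, W c ∂(mB n 0 T) ≤ B) (hl : 0 < l) : (mB n 0 T).real {c | l ≤ W c} ≤ B / l := by
  have h1 := mul_meas_ge_le_integral_of_nonneg (μ := mB n 0 T) (f := W) (Eventually.of_forall h0) (mB_int hW 0 T) l
  rw [le_div_iff₀ hl, mul_comm]
  exact h1.trans hB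

theorem t_REL (h1 : S_MAIN) (h2 : S_LB) (h3 : S_ZE) : S_REL := by
  intro n ε hε
  obtain ⟨η, hη, h2⟩ := h2 n (ε / 4) (by positivity)
  set δ₂ : ℝ := ε * η / 48 with hδ₂
  set δ₁ : ℝ := min (min (η / 2) (ε * η / 8)) (ε / 4) with hδ₁
  have hδ₁0 : 0 < δ₁ := lt_min (lt_min (by positivity) (by positivity)) (by positivity)
  have d1 : δ₁ ≤ η / 2 := (min_le_left _ _).trans (min_le_left _ _)
  have d2 : δ₁ ≤ ε * η / 8 := (min_le_left _ _).trans (min_le_right _ _)
  have d3 : δ₁ ≤ ε / 4 := min_le_right _ _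
  have hδ₂0 : 0 < δ₂ := by positivity
  filter_upwards [h1 n (δ₂ * (ε / 4)) (by positivity), h2, h3 n δ₁ hδ₁0, eventually_ge_atTop (1:ℝ),
    Real.tendsto_log_atTop.eventually_ge_atTop 1] with T h1 h2 h3 hT1 hL1
  have hT0 : 0 < T := by linarith
  set D := Real.log T ^ (n + 4) with hD
  have hDp : 0 < D := by positivity
  have hTD : 0 < T * D := by positivity
  have hTn : 0 < T ^ n := by positivity
  set M : (Fin n → ℝ) → ℝ := fun c => ∫ t in (0:ℝ)..T, Xz t ^ 4 * ∏ j, ff (t + c j) with hM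
  have hMc : Continuous M := I_cont T
  have hSS := SS_cont (n := n) (Real.log T)
  have hWc : Continuous fun c => |M c / (T * D) - 1 / 12 * SS (Real.log T) c| := by fun_prop
  have hk := mB_markov hWc (fun c => abs_nonneg _) h1 hδ₂0
  have hk' : (mB n 0 T).real {c | δ₂ ≤ |M c / (T * D) - 1 / 12 * SS (Real.log T) c|} ≤ ε / 4 * T ^ n := by
    refine hk.trans (le_of_eq ?_)
    field_simp
  have hsub : {c : Fin n → ℝ | (∀ j, 0 ≤ c j ∧ c j ≤ T) ∧
      ¬ |M c / (1 / 12 * (zp c * AA c) * (T * D)) - 1| ≤ ε} ⊆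
      (({c | SS (Real.log T) c ≤ η} ∪ {c | δ₁ ≤ |SS (Real.log T) c - zp c * AA c|}) ∪
        {c | δ₂ ≤ |M c / (T * D) - 1 / 12 * SS (Real.log T) c|}) ∩ Set.Icc (fun _ => 0) (fun _ => T) := by
    rintro c ⟨hc, hbad⟩
    refine ⟨?_, fun j => (hc j).1, fun j => (hc j).2⟩
    by_contra hcon
    simp only [Set.mem_union, Set.mem_ofPred_eq, not_or, not_le] at hcon
    obtain ⟨⟨q1, q2⟩, q3⟩ := hcon
    apply hbad
    set G := zp c * AA c with hG
    have hG1 : η / 2 ≤ G := by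
      have := (abs_lt.mp q2).2
      linarith
    have hG0 : 0 < G := by linarith
    have e1 : M c / (1 / 12 * G * (T * D)) - 1 = 12 * (M c / (T * D) - 1 / 12 * G) / G := by
      field_simp
    have e2 : |M c / (T * D) - 1 / 12 * G| ≤ δ₂ + δ₁ / 12 := by
      have e3 : M c / (T * D) - 1 / 12 * G = (M c / (T * D) - 1 / 12 * SS (Real.log T) c) +
          1 / 12 * (SS (Real.log T) c - G) := by ring
      rw [e3]
      refine (abs_add_le _ _).trans (add_le_add q3.le ?_)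
      rw [abs_mul, abs_of_pos (by norm_num)]
      linarith
    rw [e1, abs_div, abs_mul, abs_of_pos (by norm_num : (0:ℝ) < 12), abs_of_pos hG0, div_le_iff₀ hG0]
    calc 12 * |M c / (T * D) - 1 / 12 * G| ≤ 12 * (δ₂ + δ₁ / 12) := by gcongr
      _ ≤ ε * (η / 2) := by
          have : 12 * δ₂ = ε * η / 4 := by rw [hδ₂]; ring
          nlinarith
      _ ≤ ε * G := by gcongr
  have hreal : (mB n 0 T).real (({c | SS (Real.log T) c ≤ η} ∪ {c | δ₁ ≤ |SS (Real.log T) c - zp c * AA c|}) ∪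
        {c | δ₂ ≤ |M c / (T * D) - 1 / 12 * SS (Real.log T) c|}) ≤ ε * T ^ n := by
    refine (measureReal_union_le _ _).trans ?_
    have := measureReal_union_le (μ := mB n 0 T) {c | SS (Real.log T) c ≤ η}
      {c | δ₁ ≤ |SS (Real.log T) c - zp c * AA c|}
    have h5 : δ₁ * T ^ n ≤ ε / 4 * T ^ n := by gcongr
    have h6 : 0 < ε * T ^ n := by positivity
    linarith
  calc _ ≤ volume ((({c | SS (Real.log T) c ≤ η} ∪ {c | δ₁ ≤ |SS (Real.log T) c - zp c * AA c|}) ∪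
        {c | δ₂ ≤ |M c / (T * D) - 1 / 12 * SS (Real.log T) c|}) ∩ Set.Icc (fun _ => 0) (fun _ => T)) :=
        measure_mono hsub
    _ = (mB n 0 T) (({c | SS (Real.log T) c ≤ η} ∪ {c | δ₁ ≤ |SS (Real.log T) c - zp c * AA c|}) ∪
        {c | δ₂ ≤ |M c / (T * D) - 1 / 12 * SS (Real.log T) c|}) := by
        rw [mB_eq, Measure.restrict_apply' measurableSet_Icc]
    _ ≤ _ := by
        rw [← ENNReal.ofReal_toReal (measure_ne_top (mB n 0 T) _)]
        exact ENNReal.ofReal_le_ofReal hreal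

end

end Pool.Agent.Y969.SM
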