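import Pool.Agent.Y969.SM.Bas
import Pool.Agent.H262R4.TM.TW
import Pool.Agent.Y86.GP.CT

set_option autoImplicit false

/-! Project SX: the windows, preparations: continuity of the parametric integrals on the box. -/

namespace Pool.Agent.Y969.SM

open Finset Filter Topology MeasureTheory Complex
open Pool.Agent.Y969.GP (ff ht lam FR PX cr co V mB S_V)
open Pool.Agent.H306R2.SM (om cl Yf)
open Pool.Agent.H262R4.TM (Rng Ck)

noncomputable section

/-- the box -/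
abbrev bx (n : ℕ) (U : ℝ) : Set (Fin n → ℝ) := Set.Icc (fun _ => 0) (fun _ => U)

lemma mBc_int {n : ℕ} {E : Type*} [NormedAddCommGroup E] {U : ℝ} {f : (Fin n → ℝ) → E}
    (hf : ContinuousOn f (bx n U)) : Integrable f (mB n 0 U) := by
  rw [mB_eq]
  exact hf.integrableOn_compact isCompact_Icc

lemma mBc_cs {n : ℕ} {T : ℝ} (hT : 0 ≤ T) {f : (Fin n → ℝ) → ℂ} (hf : ContinuousOn f (bx n T)) {b : ℝ} (hb : 0 < b)
    (h : ∫ c, ‖f c‖ ^ 2 ∂(mB n 0 T) ≤ b ^ 2 * T ^ n) : ∫ c, ‖f c‖ ∂(mB n 0 T) ≤ b * T ^ n := by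
  have i1 : Integrable (fun c => ‖f c‖) (mB n 0 T) := mBc_int hf.norm
  have i2 : Integrable (fun c => ‖f c‖ ^ 2) (mB n 0 T) := mBc_int (hf.norm.pow 2)
  calc ∫ c, ‖f c‖ ∂(mB n 0 T) ≤ ∫ c, ((2 * b)⁻¹ * ‖f c‖ ^ 2 + b / 2) ∂(mB n 0 T) := by
        refine integral_mono i1 ((i2.const_mul _).add (integrable_const _)) fun c => ?_
        have h3 : 0 ≤ (‖f c‖ - b) ^ 2 / (2 * b) := by positivity
        have h4 : (2 * b)⁻¹ * ‖f c‖ ^ 2 + b / 2 - ‖f c‖ = (‖f c‖ - b) ^ 2 / (2 * b) := by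
          field_simp; ring
        simp only
        linarith
    _ = (2 * b)⁻¹ * (∫ c, ‖f c‖ ^ 2 ∂(mB n 0 T)) + b / 2 * T ^ n := by
        rw [integral_add (i2.const_mul _) (integrable_const _), integral_const_mul, mB_const hT]
    _ ≤ (2 * b)⁻¹ * (b ^ 2 * T ^ n) + b / 2 * T ^ n := by gcongr
    _ = b * T ^ n := by field_simp; ring

lemma par_cont {n : ℕ} {U δ M : ℝ} {N κ : ℕ} {G : (Fin n → ℝ) → ℝ → ℂ} (hδ : 0 < δ)
    (hG1 : ∀ c ∈ bx n U, ContinuousOn (G c) (Set.Ioi 0))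
    (hG2 : ∀ t, 0 < t → ContinuousOn (fun c => G c t) (bx n U))
    (hb : ∀ c ∈ bx n U, ∀ t, 0 < t → ‖G c t‖ ≤ om κ δ t * (M * (1 + t) ^ N)) :
    ContinuousOn (fun c => ∫ t in Set.Ioi (0:ℝ), G c t) (bx n U) := by
  refine continuousOn_of_dominated (bound := fun t => M * (om κ δ t * (1 + t) ^ N)) ?_ ?_ ?_ ?_
  · exact fun c hc => (hG1 c hc).aestronglyMeasurable measurableSet_Ioi
  · intro c hc
    refine (ae_restrict_iff' measurableSet_Ioi).mpr (Eventually.of_forall fun t ht => ?_)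
    refine (hb c hc t ht).trans (le_of_eq (by ring))
  · exact (Pool.Agent.H262R4.TM.TTW.om_poly κ N hδ).const_mul M
  · exact (ae_restrict_iff' measurableSet_Ioi).mpr (Eventually.of_forall fun t ht => hG2 t ht)

lemma par_cont2 {n : ℕ} {U a b : ℝ} (hab : a ≤ b) {G : (Fin n → ℝ) → ℝ → ℂ}
    (hG : ContinuousOn (Function.uncurry G) (bx n U ×ˢ Set.Icc a b)) :
    ContinuousOn (fun c => ∫ t in a..b, G c t) (bx n U) := by
  obtain ⟨M, hM⟩ := (isCompact_Icc.prod isCompact_Icc).exists_bound_of_continuousOn hG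
  simp only [intervalIntegral.integral_of_le hab]
  refine continuousOn_of_dominated (bound := fun _ => M) ?_ ?_ (integrable_const _) ?_
  · intro c hc
    have h1 : ContinuousOn (G c) (Set.Icc a b) :=
      hG.comp (f := fun t => (c, t)) (by fun_prop) fun t ht => ⟨hc, ht⟩
    exact (h1.mono Set.Ioc_subset_Icc_self).aestronglyMeasurable measurableSet_Ioc
  · intro c hc
    refine (ae_restrict_iff' measurableSet_Ioc).mpr (Eventually.of_forall fun t ht => ?_)
    exact hM (c, t) ⟨hc, Set.Ioc_subset_Icc_self ht⟩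
  · refine (ae_restrict_iff' measurableSet_Ioc).mpr (Eventually.of_forall fun t ht => ?_)
    exact hG.comp (f := fun c => (c, t)) (by fun_prop) fun c hc => ⟨hc, Set.Ioc_subset_Icc_self ht⟩

lemma bx_nn {n : ℕ} {U : ℝ} {c : Fin n → ℝ} (hc : c ∈ bx n U) (j : Fin n) : 0 ≤ c j ∧ c j ≤ U :=
  ⟨hc.1 j, hc.2 j⟩

lemma ff_bd (u : ℝ) (hu : 0 ≤ u) : 0 ≤ ff u ∧ ff u ≤ 576 * (1 + u) ^ 4 := by
  have h := Pool.Agent.H262R4.TM.TTW.zeta_cl_bound u hu
  have e : ff u = ‖riemannZeta (cl u)‖ ^ 2 := by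
    unfold ff cl; rw [mul_comm]
  rw [e]
  refine ⟨by positivity, ?_⟩
  calc _ ≤ (24 * (1 + u) ^ 2) ^ 2 := pow_le_pow_left₀ (norm_nonneg _) h 2
    _ = _ := by ring

lemma ff_bd2 {t c U : ℝ} (ht : 0 < t) (hc : 0 ≤ c) (hcU : c ≤ U) (_hU : 0 ≤ U) :
    ff (t + c) ≤ (576 * (1 + U) ^ 4) * (1 + t) ^ 4 := by
  refine (ff_bd (t + c) (by linarith)).2.trans ?_
  have h1 : 1 + (t + c) ≤ (1 + U) * (1 + t) := by nlinarith
  calc 576 * (1 + (t + c)) ^ 4 ≤ 576 * ((1 + U) * (1 + t)) ^ 4 := by gcongr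
    _ = _ := by ring

/-- continuity of `V1` -/
lemma V1_cont {k n κ : ℕ} {T U : ℝ} (hκ : 1 ≤ κ) (hT : 0 < T) (hU : 0 ≤ U) (hF : Continuous (F0 k T))
    (hF2 : ∀ t : ℝ, 0 ≤ t → |F0 k T t| ≤ T ^ 3 * (1 + t) ^ 4) :
    ContinuousOn (fun c : Fin n → ℝ => ∫ t in Set.Ioi (0:ℝ), om κ (κ / T) t * (F0 k T t * ∏ j, ff (t + c j)))
      (bx n U) := by
  have hδ : 0 < (κ:ℝ) / T := by
    have : (0:ℝ) < κ := by exact_mod_cast hκ
    positivity
  have h := par_cont (n := n) (U := U) (κ := κ) (N := 4 + 4 * n) (M := T ^ 3 * (576 * (1 + U) ^ 4) ^ n) hδ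
    (G := fun c t => ((om κ (κ / T) t * (F0 k T t * ∏ j, ff (t + c j)) : ℝ) : ℂ)) ?_ ?_ ?_
  · have h2 := Complex.continuous_re.comp_continuousOn h
    refine h2.congr fun c hc => ?_
    simp only [Function.comp_def]
    rw [integral_complex_ofReal, Complex.ofReal_re]
  · intro c _
    refine (Complex.continuous_ofReal.comp ?_).continuousOn
    refine (Pool.Agent.H262R4.TM.TTW.om_cont κ _).mul (hF.mul (continuous_finsetProd _ fun j _ => ?_))
    exact ff_cont.comp (by fun_prop)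
  · intro t _
    refine (Complex.continuous_ofReal.comp ?_).continuousOn
    refine continuous_const.mul (continuous_const.mul (continuous_finsetProd _ fun j _ => ?_))
    exact ff_cont.comp (by fun_prop)
  · intro c hc t ht
    have h1 : ∏ j, ff (t + c j) ≤ ((576 * (1 + U) ^ 4) * (1 + t) ^ 4) ^ n := by
      calc ∏ j, ff (t + c j) ≤ ∏ _j : Fin n, ((576 * (1 + U) ^ 4) * (1 + t) ^ 4) := by
            refine Finset.prod_le_prod (fun j _ => ?_) fun j _ => ?_
            · exact (ff_bd _ (by linarith [(bx_nn hc j).1])).1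
            · exact ff_bd2 ht (bx_nn hc j).1 (bx_nn hc j).2 hU
        _ = _ := by rw [Finset.prod_const, Finset.card_univ, Fintype.card_fin]
    have h0 : 0 ≤ ∏ j, ff (t + c j) := Finset.prod_nonneg fun j _ => (ff_bd _ (by linarith [(bx_nn hc j).1])).1
    have ho := Pool.Agent.H262R4.TM.TTW.om_nonneg κ hδ ht.le
    rw [Complex.norm_real, Real.norm_eq_abs, abs_mul, abs_mul, abs_of_nonneg ho, abs_of_nonneg h0]
    refine mul_le_mul_of_nonneg_left ?_ ho
    calc |F0 k T t| * ∏ j, ff (t + c j) ≤ (T ^ 3 * (1 + t) ^ 4) * ((576 * (1 + U) ^ 4) * (1 + t) ^ 4) ^ n :=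
          mul_le_mul (hF2 t ht.le) h1 h0 (by positivity)
      _ = _ := by rw [mul_pow, pow_add, pow_mul]; ring

/-- bound for the trigonometric polynomials -/
lemma KK_bd {n : ℕ} (Z : ℕ) : ∃ B : ℝ, 0 ≤ B ∧ ∀ (i : Fin (n + 2)) (u : ℝ), ‖KK Z i u‖ ≤ B := by
  refine ⟨∑ i : Fin (n + 2), ∑ p ∈ FR Z, |kc i p|, by positivity, fun i u => ?_⟩
  have h1 : ‖KK Z i u‖ ≤ ∑ p ∈ FR Z, |kc i p| := by
    unfold KK
    refine (norm_sum_le _ _).trans (Finset.sum_le_sum fun p _ => ?_)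
    rw [norm_mul, Complex.norm_real, Real.norm_eq_abs, mul_comm I, Complex.norm_exp_ofReal_mul_I, mul_one]
  exact h1.trans (Finset.single_le_sum (f := fun i : Fin (n + 2) => ∑ p ∈ FR Z, |kc i p|)
    (fun i _ => by positivity) (Finset.mem_univ i))

lemma KK_cont {n : ℕ} (Z : ℕ) (i : Fin (n + 2)) : Continuous (KK Z i) := by
  unfold KK; fun_prop

/-- continuity of the terms of the Taylor expansion -/
lemma TA_cont {k n κ Z : ℕ} {T U : ℝ} (hκ : 1 ≤ κ) (hT : 1 ≤ T) (a : Fin n → Fin (n + 2)) (hF : Continuous (F0 k T))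
    (hF2 : ∀ t : ℝ, 0 ≤ t → |F0 k T t| ≤ T ^ 3 * (1 + t) ^ 4) :
    ContinuousOn (fun c : Fin n → ℝ => TA k Z a κ T c) (bx n U) := by
  have hT0 : 0 < T := by linarith
  have hδ : 0 < (κ:ℝ) / T := by
    have : (0:ℝ) < κ := by exact_mod_cast hκ
    positivity
  obtain ⟨B, hB, hKK⟩ := KK_bd (n := n) Z
  unfold TA
  refine par_cont (n := n) (U := U) (κ := κ) (N := (∑ j, ke (a j)) + 4) (M := T ^ 3 * B ^ n) hδ ?_ ?_ ?_
  · intro c _
    refine Continuous.continuousOn ?_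
    refine (Complex.continuous_ofReal.comp ?_).mul (continuous_finsetProd _ fun j _ => ?_)
    · exact (Pool.Agent.H262R4.TM.TTW.om_cont κ _).mul (Continuous.mul (by fun_prop) hF)
    · exact (KK_cont Z (a j)).comp (by fun_prop)
  · intro t _
    refine (continuous_const.mul (continuous_finsetProd _ fun j _ => ?_)).continuousOn
    exact (KK_cont Z (a j)).comp (by fun_prop)
  · intro c _ t ht
    have ho := Pool.Agent.H262R4.TM.TTW.om_nonneg κ hδ ht.le
    have h1 : ∏ j, ‖KK Z (a j) (t + c j)‖ ≤ B ^ n := by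
      calc _ ≤ ∏ _j : Fin n, B := Finset.prod_le_prod (fun j _ => norm_nonneg _) fun j _ => hKK _ _
        _ = _ := by rw [Finset.prod_const, Finset.card_univ, Fintype.card_fin]
    have h2 : |(t - T) / T| ≤ 1 + t := by
      rw [abs_div, abs_of_pos hT0, div_le_iff₀ hT0, abs_le]
      constructor <;> nlinarith
    rw [norm_mul, Complex.norm_real, Real.norm_eq_abs, abs_mul, abs_mul, abs_of_nonneg ho, abs_pow, norm_prod,
      mul_assoc]
    refine mul_le_mul_of_nonneg_left ?_ ho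
    calc |(t - T) / T| ^ (∑ j, ke (a j)) * |F0 k T t| * ∏ j, ‖KK Z (a j) (t + c j)‖ ≤
          (1 + t) ^ (∑ j, ke (a j)) * (T ^ 3 * (1 + t) ^ 4) * B ^ n := by
          refine mul_le_mul (mul_le_mul (pow_le_pow_left₀ (abs_nonneg _) h2 _) (hF2 t ht.le) (abs_nonneg _)
            (by positivity)) h1 (Finset.prod_nonneg fun j _ => norm_nonneg _) (by positivity)
      _ = _ := by rw [pow_add]; ring

lemma co_cont {p : ℕ × ℕ} (h : S_V) (hp : 0 < ht p) : ContinuousOn (co p) (Set.Ioi 0) := by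
  have h1 : ContinuousOn (fun u : ℝ => V (2 * Real.pi * ht p / u)) (Set.Ioi 0) := by
    refine ContinuousOn.comp (g := V) (f := fun u : ℝ => 2 * Real.pi * ht p / u) (t := Set.Ioi 0)
      (Pool.Agent.Y86.GP.V_cont h) ?_ ?_
    · exact continuousOn_const.div continuousOn_id fun x hx => (Set.mem_Ioi.1 hx).ne'
    · intro x hx
      have hx' : 0 < x := hx
      show 0 < 2 * Real.pi * ht p / x
      positivity
  unfold co
  exact continuousOn_const.mul h1

lemma PL_cont (h : S_V) (X Z : ℕ) : ContinuousOn (PL X Z) (Set.Ioi 0) := by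
  unfold PL
  refine continuousOn_finsetSum _ fun p hp => ?_
  refine ContinuousOn.mul ?_ (by fun_prop)
  refine Complex.continuous_ofReal.comp_continuousOn ?_
  unfold cr
  refine continuousOn_finsetSum _ fun g hg => co_cont h ?_
  rw [Finset.mem_filter, Finset.mem_Icc] at hg
  have hp' : 0 < ht p := Pool.Agent.Y86.GP.ht_pos (X := Z) (by unfold FR at hp; exact (Finset.mem_filter.mp hp).1)
  unfold ht at hp' ⊢
  have hg0 : (0:ℝ) < g := by exact_mod_cast (by omega : 0 < g)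
  push_cast
  have : (g:ℝ) * p.1 * (g * p.2) = g ^ 2 * ((p.1:ℝ) * p.2) := by ring
  rw [this]
  positivity

/-- continuity of `V2`, `V3` -/
lemma V2_cont {k n κ : ℕ} {T U : ℝ} (hT : 0 < T) (hF : Continuous (F0 k T)) {P : ℝ → ℂ}
    (hP : ContinuousOn P (Set.Ioi 0)) :
    ContinuousOn (Function.uncurry fun (c : Fin n → ℝ) (t : ℝ) => ((om κ (κ / T) t * F0 k T t : ℝ) : ℂ) *
      ∏ j, P (t + c j)) (bx n U ×ˢ Set.Icc (T / 8) (8 * T)) := by
  refine ContinuousOn.mul ?_ (continuousOn_finsetProd _ fun j _ => ?_)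
  · refine (Complex.continuous_ofReal.comp ?_).continuousOn
    exact ((Pool.Agent.H262R4.TM.TTW.om_cont κ _).comp continuous_snd).mul (hF.comp continuous_snd)
  · refine hP.comp (f := fun z : (Fin n → ℝ) × ℝ => z.2 + z.1 j) (by fun_prop) ?_
    rintro ⟨c, t⟩ ⟨hc, ht⟩
    have h1 := (bx_nn hc j).1
    have h2 := ht.1
    simp only [Set.mem_Ioi]
    linarith

end

end Pool.Agent.Y969.SM
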